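import Pool.Agent.H583.ST.C

/-!
Supersolvable arrangements of hyperplanes: linear algebra.
-/

set_option autoImplicit false

namespace Pool.Agent.H583.SA

open Finset

variable {n r : ℕ}

/-- the value of a linear form at a rational point -/
def lq (L : Fin n → Fin r → ℤ) (i : Fin n) : (Fin r → ℚ) →ₗ[ℚ] ℚ where
  toFun x := ∑ j, (L i j : ℚ) * x j
  map_add' x y := by
    simp only [Pi.add_apply, mul_add, Finset.sum_add_distrib]
  map_smul' c x := by
    simp only [Pi.smul_apply, smul_eq_mul, RingHom.id_apply, Finset.mul_sum]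
    exact Finset.sum_congr rfl fun j _ => by ring

lemma lq_apply (L : Fin n → Fin r → ℤ) (i : Fin n) (x : Fin r → ℚ) :
    lq L i x = ∑ j, (L i j : ℚ) * x j := rfl

/-- three linear forms with a relation without zero coefficients -/
def Cl (L : Fin n → Fin r → ℤ) (i j l : Fin n) : Prop :=
  ∃ a b c : ℤ, a ≠ 0 ∧ b ≠ 0 ∧ c ≠ 0 ∧ ∀ k, a * L i k + b * L j k + c * L l k = 0

lemma Cl.rel {L : Fin n → Fin r → ℤ} {i j l : Fin n} {a b c : ℤ}
    (h : ∀ k, a * L i k + b * L j k + c * L l k = 0) (x : Fin r → ℚ) :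
    (a : ℚ) * lq L i x + b * lq L j x + c * lq L l x = 0 := by
  rw [lq_apply, lq_apply, lq_apply, Finset.mul_sum, Finset.mul_sum, Finset.mul_sum,
    ← Finset.sum_add_distrib, ← Finset.sum_add_distrib]
  apply Finset.sum_eq_zero
  intro k _
  have h1 : (a : ℚ) * L i k + b * L j k + c * L l k = 0 := by exact_mod_cast h k
  linear_combination x k * h1

/-- a partition of the forms into levels such that two forms of the same level have with a form of a
lower level a relation, and the forms have no common zero; the number of levels is the dimension -/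
structure Sp (L : Fin n → Fin r → ℤ) (lv : Fin n → Fin r) : Prop where
  ess : ∀ x : Fin r → ℚ, (∀ i, lq L i x = 0) → x = 0
  tri : ∀ i j, i ≠ j → lv i = lv j → ∃ l, lv l < lv i ∧ Cl L i j l

/-- the common zeros are the common zeros of one form of each level -/
lemma reps {L : Fin n → Fin r → ℤ} {lv : Fin n → Fin r} (hL : Sp L lv) {S : Fin n → Prop}
    (hS : ∀ i j l, Cl L i j l → S i → S j → S l) (e : Fin r → Fin n)
    (he : ∀ i, S i → S (e (lv i)) ∧ lv (e (lv i)) = lv i) {x : Fin r → ℚ}
    (hx : ∀ i, S i → lq L (e (lv i)) x = 0) : ∀ i, S i → lq L i x = 0 := by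
  have key : ∀ k : ℕ, ∀ i, (lv i : ℕ) = k → S i → lq L i x = 0 := by
    intro k
    induction k using Nat.strong_induction_on with
    | _ k ih =>
      intro i hik hSi
      by_cases h : i = e (lv i)
      · rw [h]
        exact hx i hSi
      · obtain ⟨h1, h2⟩ := he i hSi
        obtain ⟨l, h3, h4⟩ := hL.tri i (e (lv i)) h h2.symm
        have h5 := hS i (e (lv i)) l h4 hSi h1
        have h6 := ih (lv l) (by have := Fin.lt_def.1 h3; omega) l rfl h5
        obtain ⟨a, b, c, ha, -, -, hr⟩ := h4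
        have h7 := Cl.rel hr x
        rw [hx i hSi, h6, mul_zero, mul_zero, add_zero, add_zero] at h7
        have h8 : (a : ℚ) ≠ 0 := by exact_mod_cast ha
        exact (mul_eq_zero.1 h7).resolve_left h8
  exact fun i hi => key _ i rfl hi

/-- representatives of the levels -/
lemma reps_exist (lv : Fin n → Fin r) (S : Fin n → Prop) (i₀ : Fin n) :
    ∃ e : Fin r → Fin n, ∀ k, (∃ i, S i ∧ lv i = k) → S (e k) ∧ lv (e k) = k := by
  have h : ∀ k : Fin r, ∃ i : Fin n, (∃ i, S i ∧ lv i = k) → S i ∧ lv i = k := by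
    intro k
    by_cases hk : ∃ i, S i ∧ lv i = k
    · obtain ⟨i, hi⟩ := hk
      exact ⟨i, fun _ => hi⟩
    · exact ⟨i₀, fun h => absurd h hk⟩
  choose e he using h
  exact ⟨e, he⟩

open Classical in
/-- the levels of a set of forms -/
noncomputable def lvs (lv : Fin n → Fin r) (S : Fin n → Prop) : Finset (Fin r) :=
  univ.filter fun k => ∃ i, S i ∧ lv i = k

lemma mem_lvs {lv : Fin n → Fin r} {S : Fin n → Prop} {k : Fin r} :
    k ∈ lvs lv S ↔ ∃ i, S i ∧ lv i = k := by
  classical
  unfold lvs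
  simp only [mem_filter, mem_univ, true_and]

/-- the common zeros of a set of forms -/
def zs (L : Fin n → Fin r → ℤ) (S : Fin n → Prop) : Submodule ℚ (Fin r → ℚ) where
  carrier := {x | ∀ i, S i → lq L i x = 0}
  add_mem' {x y} hx hy i hi := by rw [map_add, hx i hi, hy i hi, add_zero]
  zero_mem' i _ := by rw [map_zero]
  smul_mem' c x hx i hi := by rw [map_smul, hx i hi, smul_zero]

lemma mem_zs {L : Fin n → Fin r → ℤ} {S : Fin n → Prop} {x : Fin r → ℚ} :
    x ∈ zs L S ↔ ∀ i, S i → lq L i x = 0 := Iff.rfl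

/-- the dimension of the common zeros -/
lemma zs_dim {L : Fin n → Fin r → ℤ} {lv : Fin n → Fin r} (hL : Sp L lv) {S : Fin n → Prop}
    (hS : ∀ i j l, Cl L i j l → S i → S j → S l) (i₀ : Fin n) :
    r ≤ Module.finrank ℚ (zs L S) + (lvs lv S).card := by
  classical
  obtain ⟨e, he⟩ := reps_exist lv S i₀
  obtain ⟨Φ, hΦ⟩ : ∃ Φ : (Fin r → ℚ) →ₗ[ℚ] (lvs lv S → ℚ), Φ = LinearMap.pi fun k : lvs lv S => lq L (e k.1) :=
    ⟨_, rfl⟩
  have h1 := LinearMap.finrank_range_add_finrank_ker Φ
  have h2 : Module.finrank ℚ (LinearMap.range Φ) ≤ (lvs lv S).card := by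
    refine (Submodule.finrank_le _).trans ?_
    rw [Module.finrank_fintype_fun_eq_card, Fintype.card_coe]
  have h3 : LinearMap.ker Φ ≤ zs L S := by
    intro x hx
    rw [LinearMap.mem_ker] at hx
    rw [mem_zs]
    apply reps hL hS e
    · intro i hi
      exact he (lv i) ⟨i, hi, rfl⟩
    · intro i hi
      have h4 := congrFun hx ⟨lv i, mem_lvs.2 ⟨i, hi, rfl⟩⟩
      rw [hΦ] at h4
      exact h4
  have h4 := Submodule.finrank_mono h3
  rw [Module.finrank_fin_fun] at h1
  omega

/-- **a spanning set of forms closed under the relations is everything** -/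
theorem closure {L : Fin n → Fin r → ℤ} {lv : Fin n → Fin r} (hL : Sp L lv) {S : Fin n → Prop}
    (hS : ∀ i j l, Cl L i j l → S i → S j → S l)
    (hsp : ∀ x : Fin r → ℚ, (∀ i, S i → lq L i x = 0) → x = 0) : ∀ i, S i := by
  intro i₀
  have h1 := zs_dim hL hS i₀
  have h2 : zs L S = ⊥ := by
    rw [Submodule.eq_bot_iff]
    exact fun x hx => hsp x hx
  rw [h2, finrank_bot, zero_add] at h1
  have h3 : lvs lv S = univ := by
    apply Finset.eq_univ_of_card
    rw [Fintype.card_fin]
    apply le_antisymm _ h1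
    have := Finset.card_le_univ (lvs lv S)
    rwa [Fintype.card_fin] at this
  have key : ∀ k : ℕ, ∀ i, (lv i : ℕ) = k → S i := by
    intro k
    induction k using Nat.strong_induction_on with
    | _ k ih =>
      intro i hik
      obtain ⟨j, hj1, hj2⟩ := mem_lvs.1 (by rw [h3]; exact mem_univ _ : lv i ∈ lvs lv S)
      by_cases h : j = i
      · rw [← h]
        exact hj1
      · obtain ⟨l, h4, a, b, c, ha, hb, hc, hr⟩ := hL.tri j i h hj2
        have h5 := ih (lv l) (by
          have := Fin.lt_def.1 h4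
          rw [hj2] at this
          omega) l rfl
        exact hS j l i ⟨a, c, b, ha, hc, hb, fun k => by rw [← hr k]; ring⟩ hj1 h5
  exact key _ i₀ rfl

/-- the arrangement is not a product: the space is not the direct sum of two subspaces such that each
form vanishes on one of them -/
def Irr (L : Fin n → Fin r → ℤ) : Prop :=
  ∀ U V : Submodule ℚ (Fin r → ℚ), IsCompl U V →
    (∀ i, (∀ x ∈ U, lq L i x = 0) ∨ (∀ x ∈ V, lq L i x = 0)) → U = ⊥ ∨ V = ⊥

/-- **an irreducible supersolvable arrangement is linked by the relations** -/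
theorem linked {L : Fin n → Fin r → ℤ} {lv : Fin n → Fin r} (hL : Sp L lv) (hI : Irr L)
    (A : Fin n → Prop) (hA : ∀ i j l, Cl L i j l → (A i ↔ A j)) : ∀ i j, A i ↔ A j := by
  classical
  have hA3 : ∀ i j l, Cl L i j l → (A i ↔ A l) := by
    rintro i j l ⟨a, b, c, ha, hb, hc, hr⟩
    exact hA i l j ⟨a, c, b, ha, hc, hb, fun k => by rw [← hr k]; ring⟩
  have key : ∀ i j, A i → A j := by
    intro i₀ j₀ hi
    by_contra hj
    have hU := zs_dim hL (S := A) (fun i j l h h1 _ => (hA3 i j l h).1 h1) i₀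
    have hV := zs_dim hL (S := fun i => ¬ A i) (fun i j l h h1 _ h2 => h1 ((hA3 i j l h).2 h2)) i₀
    have hdis : Disjoint (lvs lv A) (lvs lv fun i => ¬ A i) := by
      rw [Finset.disjoint_left]
      intro k hk hk'
      obtain ⟨i, h1, h2⟩ := mem_lvs.1 hk
      obtain ⟨j, h3, h4⟩ := mem_lvs.1 hk'
      have hne : i ≠ j := fun h => h3 (h ▸ h1)
      obtain ⟨l, -, h5⟩ := hL.tri i j hne (h2.trans h4.symm)
      exact h3 ((hA i j l h5).1 h1)
    have hcard : (lvs lv A).card + (lvs lv fun i => ¬ A i).card ≤ r := by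
      rw [← Finset.card_union_of_disjoint hdis]
      have := Finset.card_le_univ (lvs lv A ∪ lvs lv fun i => ¬ A i)
      rwa [Fintype.card_fin] at this
    have hinf : zs L A ⊓ zs L (fun i => ¬ A i) = ⊥ := by
      rw [Submodule.eq_bot_iff]
      intro x hx
      rw [Submodule.mem_inf] at hx
      apply hL.ess
      intro i
      by_cases h : A i
      · exact hx.1 i h
      · exact hx.2 i h
    have hdim := Submodule.finrank_sup_add_finrank_inf_eq (zs L A) (zs L fun i => ¬ A i)
    rw [hinf, finrank_bot, add_zero] at hdim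
    have hsup : zs L A ⊔ zs L (fun i => ¬ A i) = ⊤ := by
      apply Submodule.eq_top_of_finrank_eq
      have h1 := Submodule.finrank_le (zs L A ⊔ zs L fun i => ¬ A i)
      rw [Module.finrank_fin_fun] at h1 ⊢
      omega
    have hIC : IsCompl (zs L A) (zs L fun i => ¬ A i) :=
      ⟨disjoint_iff.2 hinf, codisjoint_iff.2 hsup⟩
    have h1 := hI _ _ hIC (by
      intro i
      by_cases h : A i
      · exact Or.inl fun x hx => hx i h
      · exact Or.inr fun x hx => hx i h)
    rcases h1 with h1 | h1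
    · rw [h1, finrank_bot, zero_add] at hU
      have : 0 < (lvs lv fun i => ¬ A i).card := Finset.card_pos.2 ⟨lv j₀, mem_lvs.2 ⟨j₀, hj, rfl⟩⟩
      omega
    · rw [h1, finrank_bot, zero_add] at hV
      have : 0 < (lvs lv A).card := Finset.card_pos.2 ⟨lv i₀, mem_lvs.2 ⟨i₀, hi, rfl⟩⟩
      omega
  exact fun i j => ⟨key i j, key j i⟩

open Classical in
/-- the forms that do not vanish on a subspace -/
noncomputable def crs (L : Fin n → Fin r → ℤ) (W : Submodule ℚ (Fin r → ℚ)) : Finset (Fin n) :=
  univ.filter fun i => ∃ w ∈ W, lq L i w ≠ 0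

lemma mem_crs {L : Fin n → Fin r → ℤ} {W : Submodule ℚ (Fin r → ℚ)} {i : Fin n} :
    i ∈ crs L W ↔ ∃ w ∈ W, lq L i w ≠ 0 := by
  classical
  unfold crs
  simp only [mem_filter, mem_univ, true_and]

/-- **a spanning set of forms of small weight** -/
theorem greedy {L : Fin n → Fin r → ℤ} (hess : ∀ x : Fin r → ℚ, (∀ i, lq L i x = 0) → x = 0)
    {s : Fin n → ℝ} (hs : ∀ i, 0 ≤ s i) {t : ℝ} (ht : 0 ≤ t) {δ : ℝ} (hδ : 0 ≤ δ)
    (H : ∀ W : Submodule ℚ (Fin r → ℚ), W ≠ ⊥ →
      (1 + δ) * (Module.finrank ℚ W : ℝ) ≤ t + ∑ i ∈ crs L W, s i) :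
    ∀ d : ℕ, ∀ W : Submodule ℚ (Fin r → ℚ), Module.finrank ℚ W = d → ∀ (u : Fin n → ℝ) (v : ℝ),
      (∀ i ∈ crs L W, 0 ≤ u i ∧ u i ≤ v) → 0 ≤ v →
      ∃ B ⊆ crs L W, (∀ w ∈ W, (∀ i ∈ B, lq L i w = 0) → w = 0) ∧
        B.card ≤ d ∧ (1 + δ) * ∑ i ∈ B, u i ≤ t * v + ∑ i ∈ crs L W, s i * u i := by
  intro d
  induction d with
  | zero =>
    intro W hW u v hu hv
    refine ⟨∅, empty_subset _, ?_, by simp, ?_⟩
    · intro w hw _
      rw [Submodule.finrank_eq_zero] at hW
      rw [hW, Submodule.mem_bot] at hw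
      exact hw
    · rw [sum_empty, mul_zero]
      exact add_nonneg (mul_nonneg ht hv)
        (Finset.sum_nonneg fun i hi => mul_nonneg (hs i) (hu i hi).1)
  | succ d ih =>
    intro W hW u v hu hv
    have hW0 : W ≠ ⊥ := by
      intro h
      rw [h, finrank_bot] at hW
      omega
    have hH := H W hW0
    rw [hW] at hH
    have hne : (crs L W).Nonempty := by
      obtain ⟨w, hw1, hw2⟩ := (Submodule.ne_bot_iff _).1 hW0
      by_contra h
      rw [Finset.not_nonempty_iff_eq_empty] at h
      apply hw2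
      apply hess
      intro i
      by_contra h2
      have h3 : i ∈ crs L W := mem_crs.2 ⟨w, hw1, h2⟩
      rw [h] at h3
      exact absurd h3 (Finset.notMem_empty i)
    obtain ⟨e, he, hmin⟩ := Finset.exists_min_image (crs L W) u hne
    obtain ⟨W', hW'⟩ : ∃ W' : Submodule ℚ (Fin r → ℚ),
      W' = (LinearMap.ker ((lq L e).domRestrict W)).map W.subtype := ⟨_, rfl⟩
    have hmem : ∀ w, w ∈ W' ↔ w ∈ W ∧ lq L e w = 0 := by
      intro w
      rw [hW', Submodule.mem_map]
      constructor
      · rintro ⟨v, hv, rfl⟩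
        rw [LinearMap.mem_ker, LinearMap.domRestrict_apply] at hv
        exact ⟨v.2, hv⟩
      · rintro ⟨h1, h2⟩
        refine ⟨⟨w, h1⟩, ?_, rfl⟩
        rw [LinearMap.mem_ker, LinearMap.domRestrict_apply]
        exact h2
    have hdim : Module.finrank ℚ W' = d := by
      have h1 := LinearMap.finrank_range_add_finrank_ker ((lq L e).domRestrict W)
      have h2 : LinearMap.range ((lq L e).domRestrict W) = ⊤ := by
        rw [LinearMap.range_eq_top]
        obtain ⟨w, hw1, hw2⟩ := mem_crs.1 he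
        intro c
        refine ⟨(c / lq L e w) • ⟨w, hw1⟩, ?_⟩
        rw [LinearMap.domRestrict_apply, Submodule.coe_smul, map_smul, smul_eq_mul]
        exact div_mul_cancel₀ c hw2
      rw [h2, finrank_top, Module.finrank_self, hW] at h1
      rw [hW', Submodule.finrank_map_subtype_eq]
      omega
    have hsub : crs L W' ⊆ crs L W := by
      intro i hi
      rw [mem_crs] at hi ⊢
      obtain ⟨w, hw1, hw2⟩ := hi
      exact ⟨w, ((hmem w).1 hw1).1, hw2⟩
    have heW : e ∉ crs L W' := by
      intro h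
      rw [mem_crs] at h
      obtain ⟨w, hw1, hw2⟩ := h
      exact hw2 ((hmem w).1 hw1).2
    have hu0 : 0 ≤ u e := (hu e he).1
    obtain ⟨B, hB1, hB2, hB3, hB4⟩ := ih W' hdim (fun i => u i - u e) (v - u e) (fun i hi => by
      have := hmin i (hsub hi)
      have h3 := (hu i (hsub hi)).2
      constructor <;> linarith) (by linarith [(hu e he).2])
    have heB : e ∉ B := fun h => heW (hB1 h)
    refine ⟨insert e B, ?_, ?_, ?_, ?_⟩
    · rw [insert_subset_iff]
      exact ⟨he, hB1.trans hsub⟩
    · intro w hw1 hw2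
      exact hB2 w ((hmem w).2 ⟨hw1, hw2 e (mem_insert_self _ _)⟩)
        fun i hi => hw2 i (mem_insert_of_mem hi)
    · rw [card_insert_of_notMem heB]
      omega
    · rw [sum_insert heB]
      rw [Finset.sum_sub_distrib, Finset.sum_const, nsmul_eq_mul] at hB4
      have h1 : ∑ i ∈ crs L W', s i * (u i - u e) ≤ ∑ i ∈ crs L W, s i * (u i - u e) := by
        apply Finset.sum_le_sum_of_subset_of_nonneg hsub
        intro i hi _
        exact mul_nonneg (hs i) (by have := hmin i hi; linarith)
      have h2 : ∑ i ∈ crs L W, s i * (u i - u e) =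
          ∑ i ∈ crs L W, s i * u i - u e * ∑ i ∈ crs L W, s i := by
        rw [Finset.mul_sum, ← Finset.sum_sub_distrib]
        apply Finset.sum_congr rfl
        intro i _
        ring
      have h3 : (B.card : ℝ) ≤ d := by exact_mod_cast hB3
      have h4 : u e * ((1 + δ) * ((d + 1 : ℕ) : ℝ)) ≤ u e * (t + ∑ i ∈ crs L W, s i) :=
        mul_le_mul_of_nonneg_left hH hu0
      have h5 : (1 + δ) * (u e * B.card) ≤ (1 + δ) * (u e * d) := by
        apply mul_le_mul_of_nonneg_left _ (by linarith)
        exact mul_le_mul_of_nonneg_left h3 hu0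
      push_cast at h4
      nlinarith

/-- an essential irreducible arrangement such that each spanning set of its hyperplanes generates it by
adding successively a hyperplane that contains the intersection of two present ones -/
structure Ar (L : Fin n → Fin r → ℤ) : Prop where
  ne : ∀ i, ∃ k, L i k ≠ 0
  ess : ∀ x : Fin r → ℚ, (∀ i, lq L i x = 0) → x = 0
  irr : Irr L
  gen : ∀ S : Fin n → Prop, (∀ i j l, Cl L i j l → S i → S j → S l) →
    (∀ x : Fin r → ℚ, (∀ i, S i → lq L i x = 0) → x = 0) → ∀ i, S i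

/-- a set of forms of minimal size without common zeros in a subspace -/
lemma small_set {L : Fin n → Fin r → ℤ} (hess : ∀ x : Fin r → ℚ, (∀ i, lq L i x = 0) → x = 0)
    (W : Submodule ℚ (Fin r → ℚ)) : ∃ B ⊆ crs L W, (∀ w ∈ W, (∀ i ∈ B, lq L i w = 0) → w = 0) ∧
      B.card ≤ Module.finrank ℚ W := by
  have H : ∀ W : Submodule ℚ (Fin r → ℚ), W ≠ ⊥ →
      (1 + (0 : ℝ)) * (Module.finrank ℚ W : ℝ) ≤ 0 + ∑ i ∈ crs L W, ((r : ℝ) + 1) := by
    intro W hW
    obtain ⟨w, hw1, hw2⟩ := (Submodule.ne_bot_iff _).1 hW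
    have h1 : (crs L W).Nonempty := by
      by_contra h
      rw [Finset.not_nonempty_iff_eq_empty] at h
      apply hw2
      apply hess
      intro i
      by_contra h2
      have h3 : i ∈ crs L W := mem_crs.2 ⟨w, hw1, h2⟩
      rw [h] at h3
      exact absurd h3 (Finset.notMem_empty i)
    have h2 : (1 : ℝ) ≤ (crs L W).card := by exact_mod_cast Finset.card_pos.2 h1
    have h3 : (Module.finrank ℚ W : ℝ) ≤ r := by
      have := Submodule.finrank_le W
      rw [Module.finrank_fin_fun] at this
      exact_mod_cast this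
    rw [Finset.sum_const, nsmul_eq_mul, add_zero, one_mul, zero_add]
    have h4 : (0 : ℝ) ≤ r := Nat.cast_nonneg _
    nlinarith
  obtain ⟨B, h1, h2, h3, -⟩ := greedy hess (s := fun _ => (r : ℝ) + 1) (fun _ => by positivity) le_rfl
    le_rfl H _ W rfl (fun _ => 0) 0 (fun _ _ => ⟨le_rfl, le_rfl⟩) le_rfl
  exact ⟨B, h1, h2, h3⟩

/-- **such an arrangement is linked by the relations** -/
theorem Ar.linked {L : Fin n → Fin r → ℤ} (hL : Ar L)
    (A : Fin n → Prop) (hA : ∀ i j l, Cl L i j l → (A i ↔ A j)) : ∀ i j, A i ↔ A j := by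
  classical
  have hA3 : ∀ i j l, Cl L i j l → (A i ↔ A l) := by
    rintro i j l ⟨a, b, c, ha, hb, hc, hr⟩
    exact hA i l j ⟨a, c, b, ha, hc, hb, fun k => by rw [← hr k]; ring⟩
  have key : ∀ i j, A i → A j := by
    intro i₀ j₀ hi
    by_contra hj
    obtain ⟨B, hB1, hB2, hB3⟩ := small_set hL.ess (zs L A)
    have hBA : ∀ i ∈ B, ¬ A i := by
      intro i hi' h
      obtain ⟨w, hw1, hw2⟩ := mem_crs.1 (hB1 hi')
      exact hw2 (hw1 i h)
    -- the forms that vanish where those of `B` do
    have hall := hL.gen (fun i => A i ∨ (¬ A i ∧ ∀ x, (∀ j ∈ B, lq L j x = 0) → lq L i x = 0)) (by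
      rintro i j l hcl (h1 | ⟨h1, h1'⟩) h2
      · exact Or.inl ((hA3 i j l hcl).1 h1)
      · rcases h2 with h2 | ⟨h2, h2'⟩
        · exact absurd ((hA i j l hcl).2 h2) h1
        · right
          refine ⟨fun h => h1 ((hA3 i j l hcl).2 h), ?_⟩
          intro x hx
          obtain ⟨a, b, c, ha, hb, hc, hr⟩ := hcl
          have h7 := Cl.rel hr x
          rw [h1' x hx, h2' x hx, mul_zero, mul_zero, zero_add, zero_add] at h7
          have h8 : (c : ℚ) ≠ 0 := by exact_mod_cast hc
          exact (mul_eq_zero.1 h7).resolve_left h8) (by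
      intro x hx
      apply hB2 x
      · intro i hi
        exact hx i (Or.inl hi)
      · intro i hi
        exact hx i (Or.inr ⟨hBA i hi, fun x hx => hx i hi⟩))
    -- the dimension of the common zeros of the other forms
    obtain ⟨Φ, hΦ⟩ : ∃ Φ : (Fin r → ℚ) →ₗ[ℚ] (B → ℚ), Φ = LinearMap.pi fun k : B => lq L k.1 :=
      ⟨_, rfl⟩
    have h1 := LinearMap.finrank_range_add_finrank_ker Φ
    have h2 : Module.finrank ℚ (LinearMap.range Φ) ≤ B.card := by
      refine (Submodule.finrank_le _).trans ?_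
      rw [Module.finrank_fintype_fun_eq_card, Fintype.card_coe]
    have h3 : LinearMap.ker Φ ≤ zs L fun i => ¬ A i := by
      intro x hx
      rw [LinearMap.mem_ker] at hx
      rw [mem_zs]
      intro i hi
      rcases hall i with h | ⟨-, h⟩
      · exact absurd h hi
      · apply h
        intro j hj
        have h4 := congrFun hx ⟨j, hj⟩
        rw [hΦ] at h4
        exact h4
    have h4 := Submodule.finrank_mono h3
    rw [Module.finrank_fin_fun] at h1
    have hinf : zs L A ⊓ zs L (fun i => ¬ A i) = ⊥ := by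
      rw [Submodule.eq_bot_iff]
      intro x hx
      rw [Submodule.mem_inf] at hx
      apply hL.ess
      intro i
      by_cases h : A i
      · exact hx.1 i h
      · exact hx.2 i h
    have hdim := Submodule.finrank_sup_add_finrank_inf_eq (zs L A) (zs L fun i => ¬ A i)
    rw [hinf, finrank_bot, add_zero] at hdim
    have hsup : zs L A ⊔ zs L (fun i => ¬ A i) = ⊤ := by
      apply Submodule.eq_top_of_finrank_eq
      have h1 := Submodule.finrank_le (zs L A ⊔ zs L fun i => ¬ A i)
      rw [Module.finrank_fin_fun] at h1 ⊢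
      omega
    have hIC : IsCompl (zs L A) (zs L fun i => ¬ A i) :=
      ⟨disjoint_iff.2 hinf, codisjoint_iff.2 hsup⟩
    -- a form does not vanish everywhere
    have hnv : ∀ i, (∀ x : Fin r → ℚ, lq L i x = 0) → False := by
      intro i hi
      obtain ⟨k, hk⟩ := hL.ne i
      have h5 := hi (Pi.single k 1)
      rw [lq_apply, Finset.sum_eq_single k] at h5
      · rw [Pi.single_eq_same, mul_one] at h5
        exact hk (by exact_mod_cast h5)
      · intro j _ hj
        rw [Pi.single_eq_of_ne hj, mul_zero]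
      · intro h
        exact absurd (mem_univ k) h
    rcases hL.irr _ _ hIC (by
      intro i
      by_cases h : A i
      · exact Or.inl fun x hx => hx i h
      · exact Or.inr fun x hx => hx i h) with h5 | h5
    · rw [h5, bot_sup_eq] at hsup
      exact hnv j₀ fun x => (hsup ▸ Submodule.mem_top : x ∈ zs L fun i => ¬ A i) j₀ hj
    · rw [h5, sup_bot_eq] at hsup
      exact hnv i₀ fun x => (hsup ▸ Submodule.mem_top : x ∈ zs L A) i₀ hi
  exact fun i j => ⟨key i j, key j i⟩

end Pool.Agent.H583.SA
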