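import Pool.Agent.H583.SA.A

/-!
Supersolvable arrangements: the radicals of a spanning set of forms determine the point up to few
possibilities.
-/

set_option autoImplicit false

namespace Pool.Agent.H583.SA

open Finset Pool.Agent.T2H20.ABC Pool.Agent.T2H20.AH Pool.Agent.H785R2.ABC Pool.Agent.H583.SF
  Pool.Agent.H583.WT Pool.Agent.H583.AL Pool.Agent.H583.AR Pool.Agent.H583.GD Pool.Agent.H583.PD
  Pool.Agent.H583.ST

variable {n r : ℕ}

/-- the value of a linear form at an integer point -/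
def lz (L : Fin n → Fin r → ℤ) (i : Fin n) (x : Fin r → ℤ) : ℤ := ∑ k, L i k * x k

/-- a primitive point off the arrangement -/
structure Pt (L : Fin n → Fin r → ℤ) (x : Fin r → ℤ) : Prop where
  gcd : Finset.univ.gcd x = 1
  ne : ∀ i, lz L i x ≠ 0

/-- the sets of points such that two radicals leave few possibilities for the radical of a dependent form
and for the ratio -/
def Tw (L : Fin n → Fin r → ℤ) (F : ℕ) (Q : Finset (Fin r → ℤ)) : Prop :=
  ∀ i j l, Cl L i j l → ∀ ρ σ : ℕ,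
    ((Q.filter fun x => zr (lz L i x) = ρ ∧ zr (lz L j x) = σ).image fun x => zr (lz L l x)).card ≤ F ∧
    ((Q.filter fun x => zr (lz L i x) = ρ ∧ zr (lz L j x) = σ).image
      fun x => (lz L i x : ℚ) / (lz L j x : ℚ)).card ≤ F

lemma lz_rel {L : Fin n → Fin r → ℤ} {i j l : Fin n} {a b c : ℤ}
    (h : ∀ k, a * L i k + b * L j k + c * L l k = 0) (x : Fin r → ℤ) :
    a * lz L i x + b * lz L j x + c * lz L l x = 0 := by
  unfold lz
  rw [Finset.mul_sum, Finset.mul_sum, Finset.mul_sum, ← Finset.sum_add_distrib,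
    ← Finset.sum_add_distrib]
  apply Finset.sum_eq_zero
  intro k _
  linear_combination x k * h k

/-- one relation -/
theorem tw_one (L : Fin n → Fin r → ℤ) (i j l : Fin n) (ε : ℝ) (hε : 0 < ε) : ∃ C : ℝ, 0 < C ∧
    (Cl L i j l → ∀ X : ℕ, 1 ≤ X → ∀ Q : Finset (Fin r → ℤ),
    (∀ x ∈ Q, Pt L x ∧ ∀ i, zr (lz L i x) ≤ X) → ∀ ρ σ : ℕ,
    (((Q.filter fun x => zr (lz L i x) = ρ ∧ zr (lz L j x) = σ).image
      fun x => zr (lz L l x)).card : ℝ) ≤ C * (X : ℝ) ^ ε ∧
    (((Q.filter fun x => zr (lz L i x) = ρ ∧ zr (lz L j x) = σ).image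
      fun x => (lz L i x : ℚ) / (lz L j x : ℚ)).card : ℝ) ≤ C * (X : ℝ) ^ ε) := by
  classical
  by_cases hCl : Cl L i j l
  swap
  · exact ⟨1, one_pos, fun h => absurd h hCl⟩
  obtain ⟨a, b, c, ha, hb, hc, hrel⟩ := hCl
  obtain ⟨C₁, hC₁, h₁⟩ := two (ε / 6) (by positivity)
  obtain ⟨D, hD, hd⟩ := div_pow 1 (ε / 4) (by positivity)
  obtain ⟨N, hN⟩ : ∃ N : ℕ, N = a.natAbs + b.natAbs + c.natAbs := ⟨_, rfl⟩
  have ha' : 1 ≤ a.natAbs := Int.natAbs_pos.2 ha
  have hb' : 1 ≤ b.natAbs := Int.natAbs_pos.2 hb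
  have hc' : 1 ≤ c.natAbs := Int.natAbs_pos.2 hc
  have hN1 : 1 ≤ N := by omega
  have hN0 : (0 : ℝ) < N := by exact_mod_cast hN1
  refine ⟨(D * D + 1) * C₁ * (N : ℝ) ^ ε, by positivity, ?_⟩
  intro _ X hX Q hQ ρ σ
  obtain ⟨P, hP⟩ : ∃ P, P = Q.filter fun x => zr (lz L i x) = ρ ∧ zr (lz L j x) = σ := ⟨_, rfl⟩
  rw [← hP]
  rcases P.eq_empty_or_nonempty with h0 | ⟨x0, hx0⟩
  · rw [h0]
    simp only [image_empty, card_empty, Nat.cast_zero]
    constructor <;> positivity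
  have hX1 : (1 : ℝ) ≤ X := by exact_mod_cast hX
  have hX0 : (0 : ℝ) < X := by linarith
  obtain ⟨Z, hZ⟩ : ∃ Z : ℕ, Z = N * X := ⟨_, rfl⟩
  have hZ1 : 1 ≤ Z := by rw [hZ]; exact Nat.mul_pos hN1 hX
  have hZr : (1 : ℝ) ≤ Z := by exact_mod_cast hZ1
  have hZ0 : (0 : ℝ) < Z := by linarith
  have hZε : (Z : ℝ) ^ ε = (N : ℝ) ^ ε * (X : ℝ) ^ ε := by
    rw [hZ]
    push_cast
    rw [Real.mul_rpow hN0.le hX0.le]
  have hPm : ∀ x ∈ P, (lz L i x ≠ 0 ∧ lz L j x ≠ 0 ∧ lz L l x ≠ 0) ∧ zr (lz L i x) = ρ ∧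
      zr (lz L j x) = σ ∧ zr (lz L l x) ≤ X := by
    intro x hx
    rw [hP, mem_filter] at hx
    obtain ⟨g1, g2⟩ := hQ x hx.1
    exact ⟨⟨g1.ne i, g1.ne j, g1.ne l⟩, hx.2.1, hx.2.2, g2 l⟩
  have hx0' := hx0
  rw [hP, mem_filter] at hx0'
  have hρ1 : 1 ≤ ρ := by rw [← hx0'.2.1]; exact zr_pos _
  have hσ1 : 1 ≤ σ := by rw [← hx0'.2.2]; exact zr_pos _
  have hρX : ρ ≤ X := by rw [← hx0'.2.1]; exact (hQ x0 hx0'.1).2 i
  have hσX : σ ≤ X := by rw [← hx0'.2.2]; exact (hQ x0 hx0'.1).2 j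
  obtain ⟨ρ', hρ'⟩ : ∃ ρ', ρ' = rad (ρ * a.natAbs) := ⟨_, rfl⟩
  obtain ⟨σ', hσ'⟩ : ∃ σ', σ' = rad (σ * b.natAbs) := ⟨_, rfl⟩
  have hρ'1 : 1 ≤ ρ' := by rw [hρ']; exact SF.rad_pos _
  have hσ'1 : 1 ≤ σ' := by rw [hσ']; exact SF.rad_pos _
  have hρ'Z : ρ' ≤ Z := by
    rw [hρ', hZ]
    refine (SF.rad_le_self (by positivity)).trans ?_
    rw [mul_comm]
    exact Nat.mul_le_mul (by omega) hρX
  have hσ'Z : σ' ≤ Z := by
    rw [hσ', hZ]
    refine (SF.rad_le_self (by positivity)).trans ?_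
    rw [mul_comm]
    exact Nat.mul_le_mul (by omega) hσX
  have hZZ : Z ≤ Z ^ 3 := Nat.le_self_pow (by norm_num) Z
  -- the ratio
  obtain ⟨y, hy⟩ : ∃ y : (Fin r → ℤ) → ℚ,
    y = fun x => ((a * lz L i x : ℤ) : ℚ) / ((b * lz L j x : ℤ) : ℚ) := ⟨_, rfl⟩
  have hfac : ∀ x ∈ P, y x ≠ 0 ∧ y x ≠ -1 ∧ zr (U (y x)) ≤ Z ^ 3 ∧ zr (y x).den ∣ σ' ∧
      zr (y x).num ∣ ρ' ∧ ∃ d : ℤ, d ≠ 0 ∧ zr d ∣ σ' ∧
        a * lz L i x + b * lz L j x = d * ((y x).num + (y x).den) := by
    intro x hx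
    obtain ⟨⟨e1, e2, e3⟩, g1, g2, g3⟩ := hPm x hx
    have hA : a * lz L i x ≠ 0 := mul_ne_zero ha e1
    have hB : b * lz L j x ≠ 0 := mul_ne_zero hb e2
    have hC : c * lz L l x ≠ 0 := mul_ne_zero hc e3
    have hr := lz_rel hrel x
    have hAB : a * lz L i x + b * lz L j x ≠ 0 := by
      intro h
      rw [h, zero_add] at hr
      exact hC hr
    obtain ⟨d, k1, k2⟩ := Rat.exists_eq_mul_div_num_and_eq_mul_div_den (a * lz L i x) hB
    have hyx : y x = ((a * lz L i x : ℤ) : ℚ) / ((b * lz L j x : ℤ) : ℚ) := by rw [hy]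
    rw [← hyx] at k1 k2
    have hA' : ((a * lz L i x : ℤ) : ℚ) ≠ 0 := by exact_mod_cast hA
    have hB' : ((b * lz L j x : ℤ) : ℚ) ≠ 0 := by exact_mod_cast hB
    have y0 : y x ≠ 0 := by
      rw [hyx]
      exact div_ne_zero hA' hB'
    have y1 : y x ≠ -1 := by
      rw [hyx]
      intro h
      rw [div_eq_iff hB'] at h
      apply hAB
      have h2 : ((a * lz L i x : ℤ) : ℚ) + ((b * lz L j x : ℤ) : ℚ) = 0 := by linarith
      exact_mod_cast h2
    have hd0 : d ≠ 0 := by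
      intro h
      rw [h, zero_mul] at k2
      exact hB k2
    have hzB : zr (b * lz L j x) = σ' := by
      rw [mul_comm, zr_mul_rad e2 hb, g2, hσ']
    have hzA : zr (a * lz L i x) = ρ' := by
      rw [mul_comm, zr_mul_rad e1 ha, g1, hρ']
    have hzC : zr (a * lz L i x + b * lz L j x) ≤ Z := by
      have h1 : a * lz L i x + b * lz L j x = -(lz L l x * c) := by linarith
      have h2 : zr (-(lz L l x * c)) = zr (lz L l x * c) := by
        unfold zr
        rw [Int.natAbs_neg]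
      rw [h1, h2, zr_mul_rad e3 hc, hZ]
      refine (SF.rad_le_self (by have := zr_pos (lz L l x); positivity)).trans ?_
      rw [mul_comm]
      exact Nat.mul_le_mul (by omega) g3
    have k3 : a * lz L i x + b * lz L j x = d * ((y x).num + (y x).den) := by
      rw [mul_add, ← k1, ← k2]
    have f1 : zr (y x).den ∣ σ' := by
      rw [← hzB]
      exact zr_dvd_of_dvd hB ⟨d, by rw [k2]; ring⟩
    have f2 : zr (y x).num ∣ ρ' := by
      rw [← hzA]
      exact zr_dvd_of_dvd hA ⟨d, by rw [k1]; ring⟩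
    have f3 : zr ((y x).num + (y x).den) ≤ Z :=
      (zr_le_of_dvd hAB ⟨d, by rw [k3]; ring⟩).trans hzC
    refine ⟨y0, y1, ?_, f1, f2, d, hd0, ?_, k3⟩
    · have n0 := Rat.num_ne_zero.2 y0
      have n1 := den_ne (y x)
      have n2 := num_add_ne y1
      calc zr (U (y x)) ≤ zr ((y x).num * (y x).den) * zr ((y x).num + (y x).den) :=
            zr_mul_le (mul_ne_zero n0 n1) n2
        _ ≤ (zr (y x).num * zr (y x).den) * zr ((y x).num + (y x).den) :=
            Nat.mul_le_mul_right _ (zr_mul_le n0 n1)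
        _ ≤ (Z * Z) * Z :=
            Nat.mul_le_mul (Nat.mul_le_mul ((Nat.le_of_dvd (by omega) f2).trans hρ'Z)
              ((Nat.le_of_dvd (by omega) f1).trans hσ'Z)) f3
        _ = _ := by ring
    · rw [← hzB]
      exact zr_dvd_of_dvd hB ⟨_, k2⟩
  have hY : ((P.image y).card : ℝ) ≤ C₁ * (Z : ℝ) ^ (ε / 2) := by
    have h2 := h₁ (Z ^ 3) σ' ρ' hσ'1 (hσ'Z.trans hZZ) hρ'1 (hρ'Z.trans hZZ) (P.image y) (by
      intro v hv
      rw [mem_image] at hv
      obtain ⟨x, hx, rfl⟩ := hv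
      obtain ⟨f1, f2, f3, f4, f5, -⟩ := hfac x hx
      exact ⟨f1, f2, f3, f4, f5⟩)
    refine h2.trans_eq ?_
    push_cast
    rw [← Real.rpow_natCast, ← Real.rpow_mul hZ0.le]
    congr 2
    push_cast
    ring
  have hcst : ∀ t : ℝ, t ≤ (D * D + 1) * C₁ * (Z : ℝ) ^ ε →
      t ≤ (D * D + 1) * C₁ * (N : ℝ) ^ ε * (X : ℝ) ^ ε := by
    intro t ht
    rw [hZε] at ht
    linarith
  constructor
  · apply hcst
    have hsub : (P.image fun x => zr (lz L l x)) ⊆
        ((((σ').divisors ×ˢ (P.image y)).image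
          (fun t => rad (t.1 * (t.2.num + t.2.den).natAbs))).filter fun w => w ≤ Z).biUnion
            fun w => w.divisors := by
      intro z hz
      rw [mem_image] at hz
      obtain ⟨x, hx, rfl⟩ := hz
      obtain ⟨⟨e1, e2, e3⟩, g1, g2, g3⟩ := hPm x hx
      obtain ⟨f1, f2, f3, f4, f5, d, hd0, hd1, hd2⟩ := hfac x hx
      have h1 : a * lz L i x + b * lz L j x = -(lz L l x * c) := by
        have := lz_rel hrel x
        linarith
      have h2 : zr (a * lz L i x + b * lz L j x) = zr (lz L l x * c) := by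
        rw [h1]
        unfold zr
        rw [Int.natAbs_neg]
      rw [mem_biUnion]
      refine ⟨zr (lz L l x * c), ?_, ?_⟩
      · rw [mem_filter, mem_image]
        constructor
        · refine ⟨(zr d, y x), ?_, ?_⟩
          · rw [mem_product]
            exact ⟨Nat.mem_divisors.2 ⟨hd1, by omega⟩, mem_image_of_mem _ hx⟩
          · dsimp only
            rw [← h2, hd2, zr_mul_rad hd0 (num_add_ne f2)]
        · rw [zr_mul_rad e3 hc, hZ]
          refine (SF.rad_le_self (by have := zr_pos (lz L l x); positivity)).trans ?_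
          rw [mul_comm]
          exact Nat.mul_le_mul (by omega) g3
      · rw [Nat.mem_divisors]
        exact ⟨zr_dvd_of_dvd (mul_ne_zero e3 hc) (dvd_mul_right _ _), (zr_pos _).ne'⟩
    have h3 := hd Z σ' hσ'1 hσ'Z
    rw [pow_one] at h3
    have h4 : ((((σ').divisors ×ˢ (P.image y)).image
          (fun t => rad (t.1 * (t.2.num + t.2.den).natAbs))).filter fun w => w ≤ Z).card ≤
          (σ').divisors.card * (P.image y).card := by
      refine (card_filter_le _ _).trans (card_image_le.trans ?_)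
      rw [card_product]
    have h5 : (((((σ').divisors ×ˢ (P.image y)).image
          (fun t => rad (t.1 * (t.2.num + t.2.den).natAbs))).filter fun w => w ≤ Z).biUnion
            fun w => w.divisors).card ≤ ∑ w ∈ ((((σ').divisors ×ˢ (P.image y)).image
          (fun t => rad (t.1 * (t.2.num + t.2.den).natAbs))).filter fun w => w ≤ Z), w.divisors.card :=
      card_biUnion_le
    have h6 : ((∑ w ∈ ((((σ').divisors ×ˢ (P.image y)).image
          (fun t => rad (t.1 * (t.2.num + t.2.den).natAbs))).filter fun w => w ≤ Z),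
            w.divisors.card : ℕ) : ℝ) ≤ ((σ').divisors.card * (P.image y).card : ℕ) *
              (D * (Z : ℝ) ^ (ε / 4)) := by
      push_cast
      have h7 : ∀ w ∈ ((((σ').divisors ×ˢ (P.image y)).image
          (fun t => rad (t.1 * (t.2.num + t.2.den).natAbs))).filter fun w => w ≤ Z),
            (w.divisors.card : ℝ) ≤ D * (Z : ℝ) ^ (ε / 4) := by
        intro w hw
        rw [mem_filter, mem_image] at hw
        obtain ⟨⟨t, -, ht⟩, hw2⟩ := hw
        have hw1 : 1 ≤ w := by rw [← ht]; exact SF.rad_pos _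
        have := hd Z w hw1 hw2
        rwa [pow_one] at this
      refine (Finset.sum_le_card_nsmul _ _ _ h7).trans ?_
      rw [nsmul_eq_mul]
      apply mul_le_mul_of_nonneg_right _ (by positivity)
      exact_mod_cast h4
    calc ((P.image fun x => zr (lz L l x)).card : ℝ) ≤ _ := by
          exact_mod_cast (card_le_card hsub).trans h5
      _ ≤ ((σ').divisors.card * (P.image y).card : ℕ) * (D * (Z : ℝ) ^ (ε / 4)) := h6
      _ = (((σ').divisors.card : ℝ) * ((P.image y).card : ℝ)) * (D * (Z : ℝ) ^ (ε / 4)) := by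
          push_cast; ring
      _ ≤ ((D * (Z : ℝ) ^ (ε / 4)) * (C₁ * (Z : ℝ) ^ (ε / 2))) * (D * (Z : ℝ) ^ (ε / 4)) := by
          apply mul_le_mul_of_nonneg_right _ (by positivity)
          exact mul_le_mul h3 hY (Nat.cast_nonneg _) (by positivity)
      _ = D * D * C₁ * ((Z : ℝ) ^ (ε / 4) * (Z : ℝ) ^ (ε / 2) * (Z : ℝ) ^ (ε / 4)) := by ring
      _ = D * D * C₁ * (Z : ℝ) ^ ε := by
          rw [← Real.rpow_add hZ0, ← Real.rpow_add hZ0]
          congr 2
          ring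
      _ ≤ _ := by
          apply mul_le_mul_of_nonneg_right _ (by positivity)
          nlinarith
  · apply hcst
    have hsub : (P.image fun x => (lz L i x : ℚ) / (lz L j x : ℚ)) ⊆
        (P.image y).image fun v => v * ((b : ℚ) / a) := by
      intro z hz
      rw [mem_image] at hz
      obtain ⟨x, hx, rfl⟩ := hz
      obtain ⟨⟨e1, e2, e3⟩, g1, g2, g3⟩ := hPm x hx
      rw [mem_image]
      refine ⟨y x, mem_image_of_mem _ hx, ?_⟩
      have e1' : (lz L i x : ℚ) ≠ 0 := by exact_mod_cast e1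
      have e2' : (lz L j x : ℚ) ≠ 0 := by exact_mod_cast e2
      have ha2 : (a : ℚ) ≠ 0 := by exact_mod_cast ha
      have hb2 : (b : ℚ) ≠ 0 := by exact_mod_cast hb
      rw [hy]
      push_cast
      field_simp
    have h2 := (card_le_card hsub).trans card_image_le
    calc ((P.image fun x => (lz L i x : ℚ) / (lz L j x : ℚ)).card : ℝ) ≤ ((P.image y).card : ℝ) := by
          exact_mod_cast h2
      _ ≤ C₁ * (Z : ℝ) ^ (ε / 2) := hY
      _ ≤ C₁ * (Z : ℝ) ^ ε := by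
          apply mul_le_mul_of_nonneg_left _ hC₁.le
          exact Real.rpow_le_rpow_of_exponent_le hZr (by linarith)
      _ ≤ _ := by
          apply mul_le_mul_of_nonneg_right _ (by positivity)
          nlinarith [mul_pos hD hD]

/-- all the relations -/
theorem tw_le (L : Fin n → Fin r → ℤ) (ε : ℝ) (hε : 0 < ε) : ∃ C : ℝ, 0 < C ∧ ∀ X : ℕ, 1 ≤ X →
    ∀ Q : Finset (Fin r → ℤ), (∀ x ∈ Q, Pt L x ∧ ∀ i, zr (lz L i x) ≤ X) →
    ∃ F : ℕ, 1 ≤ F ∧ (F : ℝ) ≤ C * (X : ℝ) ^ ε ∧ Tw L F Q := by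
  classical
  choose C hC h using fun t : Fin n × Fin n × Fin n => tw_one L t.1 t.2.1 t.2.2 ε hε
  obtain ⟨C', hC'⟩ : ∃ C', C' = ∑ t, C t := ⟨_, rfl⟩
  have hC'0 : 0 ≤ C' := by rw [hC']; exact Finset.sum_nonneg fun t _ => (hC t).le
  have hCC : ∀ t, C t ≤ C' := by
    intro t
    rw [hC']
    exact Finset.single_le_sum (f := C) (fun t _ => (hC t).le) (mem_univ t)
  refine ⟨C' + 1, by positivity, ?_⟩
  intro X hX Q hQ
  have hX1 : (1 : ℝ) ≤ X := by exact_mod_cast hX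
  have hXε : 1 ≤ (X : ℝ) ^ ε := Real.one_le_rpow hX1 hε.le
  refine ⟨⌊C' * (X : ℝ) ^ ε⌋₊ + 1, by omega, ?_, ?_⟩
  · push_cast
    have := Nat.floor_le (a := C' * (X : ℝ) ^ ε) (by positivity)
    linarith
  intro i j l hcl ρ σ
  obtain ⟨h1, h2⟩ := h (i, j, l) hcl X hX Q hQ ρ σ
  have h3 : C (i, j, l) * (X : ℝ) ^ ε ≤ C' * (X : ℝ) ^ ε :=
    mul_le_mul_of_nonneg_right (hCC _) (by positivity)
  constructor
  · have := Nat.le_floor (h1.trans h3)
    dsimp only at this
    omega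
  · have := Nat.le_floor (h2.trans h3)
    dsimp only at this
    omega

/-- the point is determined by the ratios up to the sign -/
lemma rec_inj {L : Fin n → Fin r → ℤ} (hL : Ar L)
    {x z : Fin r → ℤ} (hx : Pt L x) (hz : Pt L z)
    (h : ∀ i j l, Cl L i j l → (lz L i x : ℚ) / (lz L j x : ℚ) = (lz L i z : ℚ) / (lz L j z : ℚ))
    (i₀ : Fin n) (hs : 0 < lz L i₀ x ↔ 0 < lz L i₀ z) : x = z := by
  have hlin := hL.linked (fun i => lz L i z * lz L i₀ x = lz L i x * lz L i₀ z) (by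
    intro i j l hcl
    have h1 := h i j l hcl
    have a1 : (lz L j x : ℚ) ≠ 0 := by exact_mod_cast hx.ne j
    have a2 : (lz L j z : ℚ) ≠ 0 := by exact_mod_cast hz.ne j
    rw [div_eq_div_iff a1 a2] at h1
    have h2 : lz L i x * lz L j z = lz L i z * lz L j x := by exact_mod_cast h1
    constructor
    · intro h3
      apply mul_left_cancel₀ (hx.ne i)
      linear_combination lz L i₀ x * h2 + lz L j x * h3
    · intro h3
      apply mul_left_cancel₀ (hx.ne j)
      linear_combination (-lz L i₀ x) * h2 + lz L i x * h3)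
  have hall : ∀ i, lz L i z * lz L i₀ x = lz L i x * lz L i₀ z := fun i => (hlin i₀ i).1 (by ring)
  obtain ⟨a, ha⟩ : ∃ a, a = lz L i₀ x := ⟨_, rfl⟩
  obtain ⟨b, hb⟩ : ∃ b, b = lz L i₀ z := ⟨_, rfl⟩
  rw [← ha, ← hb] at hs
  rw [← ha, ← hb] at hall
  have ha0 : a ≠ 0 := by rw [ha]; exact hx.ne i₀
  have h2 : ∀ k, a * z k = b * x k := by
    have h3 := hL.ess (fun k => ((a * z k - b * x k : ℤ) : ℚ)) (by
      intro i
      rw [lq_apply]
      have h4 : ∑ j, (L i j : ℚ) * ((a * z j - b * x j : ℤ) : ℚ) =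
          ((lz L i z * a - lz L i x * b : ℤ) : ℚ) := by
        unfold lz
        rw [Finset.sum_mul, Finset.sum_mul, ← Finset.sum_sub_distrib]
        push_cast
        apply Finset.sum_congr rfl
        intro j _
        ring
      rw [h4, hall i, sub_self, Int.cast_zero])
    intro k
    have h4 : ((a * z k - b * x k : ℤ) : ℚ) = 0 := congrFun h3 k
    have h5 : a * z k - b * x k = 0 := by exact_mod_cast h4
    linarith
  have g1 : Finset.univ.gcd (fun k => a * z k) = normalize a := by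
    rw [Finset.gcd_mul_left, hz.gcd, mul_one]
  have g2 : Finset.univ.gcd (fun k => b * x k) = normalize b := by
    rw [Finset.gcd_mul_left, hx.gcd, mul_one]
  have g3 : normalize a = normalize b := by
    rw [← g1, ← g2]
    congr 1
    funext k
    exact h2 k
  rw [← Int.abs_eq_normalize, ← Int.abs_eq_normalize] at g3
  rcases abs_eq_abs.1 g3 with g | g
  · funext k
    have h3 := h2 k
    rw [← g] at h3
    exact (mul_left_cancel₀ ha0 h3).symm
  · exfalso
    rw [g] at hs ha0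
    omega

/-- **the radicals of a spanning set of forms leave few possibilities** -/
theorem known {L : Fin n → Fin r → ℤ} (hL : Ar L) (i₀ : Fin n)
    (B : Finset (Fin n)) (hB : ∀ x : Fin r → ℚ, (∀ i ∈ B, lq L i x = 0) → x = 0) :
    ∃ K : ℕ, ∀ (F : ℕ) (Q : Finset (Fin r → ℤ)), 1 ≤ F → Tw L F Q → (∀ x ∈ Q, Pt L x) →
      (∀ i ∈ B, (Q.image fun x => zr (lz L i x)).card ≤ 1) → Q.card ≤ 2 * F ^ K := by
  classical
  have hkn := hL.gen (fun i => ∃ k : ℕ, ∀ (F : ℕ) (Q : Finset (Fin r → ℤ)), 1 ≤ F →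
      Tw L F Q → (∀ x ∈ Q, Pt L x) → (∀ i ∈ B, (Q.image fun x => zr (lz L i x)).card ≤ 1) →
      (Q.image fun x => zr (lz L i x)).card ≤ F ^ k) (by
    rintro i j l hcl ⟨k1, hk1⟩ ⟨k2, hk2⟩
    refine ⟨k1 + k2 + 1, ?_⟩
    intro F Q hF hT hQ hB1
    rw [pow_succ, pow_add]
    exact un _ _ _ (hk1 F Q hF hT hQ hB1) (hk2 F Q hF hT hQ hB1) fun ρ σ => (hT i j l hcl ρ σ).1) (by
    intro x hx
    apply hB
    intro i hi
    apply hx
    refine ⟨0, ?_⟩
    intro F Q hF hT hQ hB1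
    rw [pow_zero]
    exact hB1 i hi)
  have hK : ∀ t : Fin n × Fin n, ∃ k : ℕ, (∃ l, Cl L t.1 t.2 l) → ∀ (F : ℕ) (Q : Finset (Fin r → ℤ)),
      1 ≤ F → Tw L F Q → (∀ x ∈ Q, Pt L x) →
      (∀ i ∈ B, (Q.image fun x => zr (lz L i x)).card ≤ 1) →
      (Q.image fun x => (lz L t.1 x : ℚ) / (lz L t.2 x : ℚ)).card ≤ F ^ k := by
    intro t
    by_cases hcl : ∃ l, Cl L t.1 t.2 l
    · obtain ⟨l, hcl⟩ := hcl
      obtain ⟨k1, hk1⟩ := hkn t.1
      obtain ⟨k2, hk2⟩ := hkn t.2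
      refine ⟨k1 + k2 + 1, fun _ => ?_⟩
      intro F Q hF hT hQ hB1
      rw [pow_succ, pow_add]
      exact un _ _ _ (hk1 F Q hF hT hQ hB1) (hk2 F Q hF hT hQ hB1)
        fun ρ σ => (hT t.1 t.2 l hcl ρ σ).2
    · exact ⟨0, fun h => absurd h hcl⟩
  choose N hN using hK
  refine ⟨∑ t, N t, ?_⟩
  intro F Q hF hT hQ hB1
  obtain ⟨R, hR⟩ : ∃ R : Fin n × Fin n → (Fin r → ℤ) → ℚ, R = fun t x =>
    if ∃ l, Cl L t.1 t.2 l then (lz L t.1 x : ℚ) / (lz L t.2 x : ℚ) else 0 := ⟨_, rfl⟩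
  have hc : Q.card ≤ ((Fintype.piFinset fun t : Fin n × Fin n => Q.image (R t)) ×ˢ
        (univ : Finset Bool)).card := by
    apply Finset.card_le_card_of_injOn (fun x => (fun t => R t x, decide (0 < lz L i₀ x)))
    · intro x hx
      rw [Finset.mem_coe, mem_product, Fintype.mem_piFinset]
      exact ⟨fun k => mem_image_of_mem _ hx, mem_univ _⟩
    · intro x hx z hz hxz
      simp only [Prod.mk.injEq] at hxz
      apply rec_inj hL (hQ x hx) (hQ z hz) _ i₀ (by
        have := hxz.2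
        rwa [decide_eq_decide] at this)
      intro i j l hcl
      have h1 := congrFun hxz.1 (i, j)
      rw [hR] at h1
      dsimp only at h1
      rwa [if_pos ⟨l, hcl⟩, if_pos ⟨l, hcl⟩] at h1
  rw [card_product, Fintype.card_piFinset] at hc
  refine hc.trans ?_
  rw [Finset.card_univ, Fintype.card_bool, mul_comm, ← Finset.prod_pow_eq_pow_sum]
  apply Nat.mul_le_mul_left
  apply Finset.prod_le_prod'
  intro t _
  rw [hR]
  dsimp only
  by_cases hcl : ∃ l, Cl L t.1 t.2 l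
  · simp only [if_pos hcl]
    exact hN t hcl F Q hF hT hQ hB1
  · simp only [if_neg hcl]
    have h1 : (Q.image fun _ : Fin r → ℤ => (0 : ℚ)).card ≤ 1 := by
      refine (card_le_card (t := {0}) ?_).trans (by simp)
      intro v hv
      rw [mem_image] at hv
      obtain ⟨x, -, rfl⟩ := hv
      exact mem_singleton_self _
    exact h1.trans (Nat.one_le_pow _ _ hF)

end Pool.Agent.H583.SA
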