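import Pool.Agent.H583.SA.B

/-!
Supersolvable arrangements: the number of points with radicals in a dyadic box, and the convergence of
the sum.
-/

set_option autoImplicit false

namespace Pool.Agent.H583.SA

open Finset Pool.Agent.T2H20.ABC Pool.Agent.T2H20.AH Pool.Agent.H785R2.ABC Pool.Agent.H583.SF
  Pool.Agent.H583.WT Pool.Agent.H583.AL Pool.Agent.H583.AR Pool.Agent.H583.GD Pool.Agent.H583.PD

variable {n r : ℕ}

/-- the number of points in a dyadic box, through a spanning set of forms -/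
theorem cls_one {L : Fin n → Fin r → ℤ} (hL : Ar L) (i₀ : Fin n)
    (B : Finset (Fin n)) (hB : ∀ x : Fin r → ℚ, (∀ i ∈ B, lq L i x = 0) → x = 0)
    (ε : ℝ) (hε : 0 < ε) : ∃ C : ℝ, 0 < C ∧ ∀ (u : Fin n → ℕ)
    (Q : Finset (Fin r → ℤ)), (∀ x ∈ Q, Pt L x ∧ ∀ i, Nat.log 2 (zr (lz L i x)) = u i) →
      (Q.card : ℝ) ≤ C * (2 : ℝ) ^ (∑ i ∈ B, (u i : ℝ)) * (2 : ℝ) ^ (ε * ∑ i, (u i : ℝ)) := by
  classical
  obtain ⟨K, hK⟩ := known hL i₀ B hB
  obtain ⟨C₁, hC₁, h₁⟩ := tw_le L (ε / (K + 1)) (by positivity)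
  refine ⟨2 * C₁ ^ K * 2 ^ ε * 2 ^ B.card, by positivity, ?_⟩
  intro u Q hQ
  obtain ⟨U, hU⟩ : ∃ U : ℕ, U = ∑ i, u i := ⟨_, rfl⟩
  obtain ⟨X, hX⟩ : ∃ X : ℕ, X = 2 ^ (U + 1) := ⟨_, rfl⟩
  have hX1 : 1 ≤ X := by rw [hX]; exact Nat.one_le_two_pow
  have hXr : (1 : ℝ) ≤ X := by exact_mod_cast hX1
  have hX0 : (0 : ℝ) < X := by linarith
  have hlt : ∀ x ∈ Q, ∀ i, zr (lz L i x) < 2 ^ (u i + 1) := by
    intro x hx i
    rw [← (hQ x hx).2 i]
    exact Nat.lt_pow_succ_log_self (by norm_num) _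
  have hzX : ∀ x ∈ Q, ∀ i, zr (lz L i x) ≤ X := by
    intro x hx i
    refine (hlt x hx i).le.trans ?_
    rw [hX]
    apply Nat.pow_le_pow_right (by norm_num)
    have : u i ≤ U := by
      rw [hU]
      exact Finset.single_le_sum (f := u) (fun _ _ => Nat.zero_le _) (mem_univ i)
    omega
  -- the fibres
  obtain ⟨Φ, hΦ⟩ : ∃ Φ : (Fin r → ℤ) → (Fin n → ℕ),
    Φ = fun x i => if i ∈ B then zr (lz L i x) else 0 := ⟨_, rfl⟩
  have hfib : ∀ v ∈ Q.image Φ, ((Q.filter fun x => Φ x = v).card : ℝ) ≤ 2 * C₁ ^ K * (X : ℝ) ^ ε := by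
    intro v hv
    obtain ⟨P, hP⟩ : ∃ P, P = Q.filter fun x => Φ x = v := ⟨_, rfl⟩
    rw [← hP]
    have hPQ : ∀ x ∈ P, x ∈ Q ∧ Φ x = v := fun x hx => by
      rw [hP, mem_filter] at hx
      exact hx
    obtain ⟨F, hF1, hF2, hF3⟩ := h₁ X hX1 P
      (fun x hx => ⟨(hQ x (hPQ x hx).1).1, hzX x (hPQ x hx).1⟩)
    have h2 := hK F P hF1 hF3 (fun x hx => (hQ x (hPQ x hx).1).1) (by
      intro i hi
      refine (card_le_card (t := {v i}) ?_).trans (by simp)
      intro z hz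
      rw [mem_image] at hz
      obtain ⟨x, hx, rfl⟩ := hz
      rw [mem_singleton, ← (hPQ x hx).2, hΦ]
      dsimp only
      rw [if_pos hi])
    calc (P.card : ℝ) ≤ ((2 * F ^ K : ℕ) : ℝ) := by exact_mod_cast h2
      _ = 2 * (F : ℝ) ^ K := by push_cast; ring
      _ ≤ 2 * (C₁ * (X : ℝ) ^ (ε / (K + 1))) ^ K := by
          apply mul_le_mul_of_nonneg_left _ (by norm_num)
          exact pow_le_pow_left₀ (Nat.cast_nonneg _) hF2 K
      _ = 2 * C₁ ^ K * (X : ℝ) ^ (ε / (K + 1) * K) := by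
          rw [mul_pow, ← Real.rpow_natCast ((X : ℝ) ^ (ε / (K + 1))), ← Real.rpow_mul hX0.le, mul_assoc]
      _ ≤ 2 * C₁ ^ K * (X : ℝ) ^ ε := by
          apply mul_le_mul_of_nonneg_left _ (by positivity)
          apply Real.rpow_le_rpow_of_exponent_le hXr
          rw [div_mul_eq_mul_div, div_le_iff₀ (by positivity)]
          nlinarith
  have him : (Q.image Φ).card ≤ 2 ^ (∑ i ∈ B, u i + B.card) := by
    have hsub : Q.image Φ ⊆ Fintype.piFinset fun i : Fin n =>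
        if i ∈ B then range (2 ^ (u i + 1)) else {0} := by
      intro v hv
      rw [mem_image] at hv
      obtain ⟨x, hx, rfl⟩ := hv
      rw [Fintype.mem_piFinset]
      intro i
      rw [hΦ]
      dsimp only
      split_ifs with hi
      · rw [mem_range]
        exact hlt x hx i
      · exact mem_singleton_self _
    refine (card_le_card hsub).trans_eq ?_
    rw [Fintype.card_piFinset]
    have h1 : ∀ i : Fin n, (if i ∈ B then range (2 ^ (u i + 1)) else {0} : Finset ℕ).card =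
        if i ∈ B then 2 ^ (u i + 1) else 1 := by
      intro i
      split_ifs
      · rw [card_range]
      · rw [card_singleton]
    rw [Finset.prod_congr rfl fun i _ => h1 i, Finset.prod_ite_mem, Finset.univ_inter,
      Finset.prod_pow_eq_pow_sum, Finset.sum_add_distrib]
    simp
  have h3 : (Q.card : ℝ) ≤ ((Q.image Φ).card : ℝ) * (2 * C₁ ^ K * (X : ℝ) ^ ε) := by
    rw [Finset.card_eq_sum_card_image Φ Q]
    push_cast
    refine (Finset.sum_le_sum hfib).trans_eq ?_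
    rw [Finset.sum_const, nsmul_eq_mul]
  have hXε : (X : ℝ) ^ ε = 2 ^ ε * (2 : ℝ) ^ (ε * ∑ i, (u i : ℝ)) := by
    rw [hX, hU]
    push_cast
    rw [← Real.rpow_natCast, ← Real.rpow_mul (by norm_num), ← Real.rpow_add (by norm_num)]
    congr 1
    push_cast
    ring
  have him2 : ((Q.image Φ).card : ℝ) ≤ 2 ^ B.card * (2 : ℝ) ^ (∑ i ∈ B, (u i : ℝ)) := by
    calc ((Q.image Φ).card : ℝ) ≤ ((2 ^ (∑ i ∈ B, u i + B.card) : ℕ) : ℝ) := by exact_mod_cast him
      _ = _ := by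
          push_cast
          rw [pow_add, mul_comm]
          congr 1
          rw [← Real.rpow_natCast]
          push_cast
          rfl
  calc (Q.card : ℝ) ≤ ((Q.image Φ).card : ℝ) * (2 * C₁ ^ K * (X : ℝ) ^ ε) := h3
    _ ≤ (2 ^ B.card * (2 : ℝ) ^ (∑ i ∈ B, (u i : ℝ))) * (2 * C₁ ^ K * (X : ℝ) ^ ε) :=
        mul_le_mul_of_nonneg_right him2 (by positivity)
    _ = _ := by
        rw [hXε]
        ring

/-- the term of a point -/
noncomputable def term (L : Fin n → Fin r → ℤ) (s : Fin n → ℝ) (t : ℝ) (x : Fin r → ℤ) : ℝ :=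
  ‖x‖ ^ (-t) * ∏ i, (zr (lz L i x) : ℝ) ^ (-s i)

lemma term_nonneg (L : Fin n → Fin r → ℤ) (s : Fin n → ℝ) (t : ℝ) (x : Fin r → ℤ) : 0 ≤ term L s t x :=
  mul_nonneg (Real.rpow_nonneg (norm_nonneg _) _)
    (Finset.prod_nonneg fun _ _ => Real.rpow_nonneg (Nat.cast_nonneg _) _)

/-- the height bounds the values of the forms -/
lemma norm_le (L : Fin n → Fin r → ℤ) : ∃ A : ℝ, 1 ≤ A ∧ ∀ x : Fin r → ℤ, Pt L x → ∀ i,
    (zr (lz L i x) : ℝ) ≤ A * ‖x‖ := by
  refine ⟨1 + ∑ i, ∑ k, |(L i k : ℝ)|, ?_, ?_⟩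
  · have : (0 : ℝ) ≤ ∑ i, ∑ k, |(L i k : ℝ)| :=
      Finset.sum_nonneg fun _ _ => Finset.sum_nonneg fun _ _ => abs_nonneg _
    linarith
  intro x hx i
  have h1 : (zr (lz L i x) : ℝ) ≤ |(lz L i x : ℝ)| := by
    have h1 : zr (lz L i x) ≤ (lz L i x).natAbs := SF.rad_le_self (Int.natAbs_ne_zero.2 (hx.ne i))
    have h2 : ((lz L i x).natAbs : ℝ) = |(lz L i x : ℝ)| := by
      rw [Nat.cast_natAbs, Int.cast_abs]
    rw [← h2]
    exact_mod_cast h1
  refine h1.trans ?_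
  unfold lz
  push_cast
  calc |∑ k, (L i k : ℝ) * (x k : ℝ)| ≤ ∑ k, |(L i k : ℝ) * (x k : ℝ)| := Finset.abs_sum_le_sum_abs _ _
    _ ≤ ∑ k, |(L i k : ℝ)| * ‖x‖ := by
        apply Finset.sum_le_sum
        intro k _
        rw [abs_mul]
        apply mul_le_mul_of_nonneg_left _ (abs_nonneg _)
        have := norm_le_pi_norm x k
        rwa [Int.norm_eq_abs] at this
    _ = (∑ k, |(L i k : ℝ)|) * ‖x‖ := by rw [Finset.sum_mul]
    _ ≤ _ := by
        apply mul_le_mul_of_nonneg_right _ (norm_nonneg _)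
        have : ∑ k, |(L i k : ℝ)| ≤ ∑ i, ∑ k, |(L i k : ℝ)| :=
          Finset.single_le_sum (f := fun i => ∑ k, |(L i k : ℝ)|)
            (fun _ _ => Finset.sum_nonneg fun _ _ => abs_nonneg _) (mem_univ i)
        linarith

/-- **convergence** -/
theorem conv {L : Fin n → Fin r → ℤ} (hL : Ar L) (i₀ : Fin n)
    (s : Fin n → ℝ) (hs : ∀ i, 0 ≤ s i) (t : ℝ) (ht : 0 ≤ t) (hst : ∀ i, 0 < t + s i)
    (H : ∀ W : Submodule ℚ (Fin r → ℚ), W ≠ ⊥ → (Module.finrank ℚ W : ℝ) < t + ∑ i ∈ crs L W, s i) :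
    ∃ C : ℝ, ∀ Q : Finset (Fin r → ℤ), (∀ x ∈ Q, Pt L x) → ∑ x ∈ Q, term L s t x ≤ C := by
  classical
  -- a uniform `δ`
  obtain ⟨δ, hδ, Hδ⟩ : ∃ δ : ℝ, 0 < δ ∧ ∀ W : Submodule ℚ (Fin r → ℚ), W ≠ ⊥ →
      (1 + δ) * (Module.finrank ℚ W : ℝ) ≤ t + ∑ i ∈ crs L W, s i := by
    obtain ⟨d, hd⟩ : ∃ d : Fin (r + 1) × Finset (Fin n) → ℝ, d = fun z =>
      if 1 ≤ (z.1 : ℕ) ∧ (z.1 : ℝ) < t + ∑ i ∈ z.2, s i then (t + ∑ i ∈ z.2, s i) / (z.1 : ℝ) - 1 else 1 :=
      ⟨_, rfl⟩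
    obtain ⟨t₀, -, ht₀⟩ := Finset.exists_min_image univ d ⟨(0, ∅), mem_univ _⟩
    have hpos : ∀ z, 0 < d z := by
      intro z
      rw [hd]
      dsimp only
      split_ifs with h
      · have h3 : (0 : ℝ) < (z.1 : ℕ) := by exact_mod_cast h.1
        rw [sub_pos, lt_div_iff₀ h3, one_mul]
        exact h.2
      · exact one_pos
    refine ⟨d t₀, hpos t₀, ?_⟩
    intro W hW
    have hfr : Module.finrank ℚ W < r + 1 := by
      have := Submodule.finrank_le W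
      rw [Module.finrank_fin_fun] at this
      omega
    have h1 := ht₀ (⟨Module.finrank ℚ W, hfr⟩, crs L W) (mem_univ _)
    have h2 : 1 ≤ Module.finrank ℚ W := by
      rw [Nat.one_le_iff_ne_zero, Ne, Submodule.finrank_eq_zero]
      exact hW
    have h3 : (0 : ℝ) < (Module.finrank ℚ W : ℝ) := by exact_mod_cast h2
    have h4 : d (⟨Module.finrank ℚ W, hfr⟩, crs L W) =
        (t + ∑ i ∈ crs L W, s i) / (Module.finrank ℚ W : ℝ) - 1 := by
      rw [hd]
      dsimp only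
      rw [if_pos ⟨h2, H W hW⟩]
    rw [h4] at h1
    have h5 : 1 + d t₀ ≤ (t + ∑ i ∈ crs L W, s i) / (Module.finrank ℚ W : ℝ) := by linarith
    rwa [le_div_iff₀ h3] at h5
  obtain ⟨p₀, -, hmin⟩ := Finset.exists_min_image (univ : Finset (Fin n)) (fun i => t / n + s i)
    ⟨i₀, mem_univ _⟩
  obtain ⟨σ, hσd⟩ : ∃ σ, σ = t / n + s p₀ := ⟨_, rfl⟩
  have hn0 : (0 : ℝ) < n := by exact_mod_cast (lt_of_le_of_lt (Nat.zero_le _) i₀.2)
  have hσ : 0 < σ := by
    rw [hσd]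
    have h1 := hst p₀
    rcases ht.eq_or_lt with h2 | h2
    · rw [← h2] at h1 ⊢
      rw [zero_div]
      exact h1
    · have h3 : 0 < t / n := by positivity
      linarith [hs p₀]
  have hσ' : ∀ i, σ ≤ t / n + s i := fun i => by rw [hσd]; exact hmin i (mem_univ _)
  obtain ⟨η, hη⟩ : ∃ η, η = δ * σ / (2 * (1 + δ)) := ⟨_, rfl⟩
  have hη0 : 0 < η := by rw [hη]; positivity
  obtain ⟨A₁, hA₁, hnorm⟩ := norm_le L
  -- the constants of the sets `B`
  have hcst : ∀ B : Finset (Fin n), ∃ C : ℝ, 0 < C ∧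
      ((∀ x : Fin r → ℚ, (∀ i ∈ B, lq L i x = 0) → x = 0) →
      ∀ (u : Fin n → ℕ) (Q : Finset (Fin r → ℤ)),
      (∀ x ∈ Q, Pt L x ∧ ∀ i, Nat.log 2 (zr (lz L i x)) = u i) →
      (Q.card : ℝ) ≤ C * (2 : ℝ) ^ (∑ i ∈ B, (u i : ℝ)) * (2 : ℝ) ^ (η * ∑ i, (u i : ℝ))) := by
    intro B
    by_cases h : ∀ x : Fin r → ℚ, (∀ i ∈ B, lq L i x = 0) → x = 0
    · obtain ⟨C, hC, h1⟩ := cls_one hL i₀ B h η hη0
      exact ⟨C, hC, fun _ => h1⟩
    · exact ⟨1, one_pos, fun h1 => absurd h1 h⟩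
  choose C hC hCB using hcst
  obtain ⟨C', hC'⟩ : ∃ C', C' = ∑ B : Finset (Fin n), C B := ⟨_, rfl⟩
  have hCC : ∀ B, C B ≤ C' := by
    intro B
    rw [hC']
    exact Finset.single_le_sum (f := C) (fun B _ => (hC B).le) (mem_univ B)
  have hC'0 : 0 < C' := lt_of_lt_of_le (hC ∅) (hCC ∅)
  obtain ⟨q, hq⟩ : ∃ q : ℝ, q = 2 ^ (-η) := ⟨_, rfl⟩
  have hq0 : 0 < q := by rw [hq]; positivity
  have hq1 : q < 1 := by
    rw [hq]
    exact Real.rpow_lt_one_of_one_lt_of_neg (by norm_num) (by linarith)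
  refine ⟨(A₁ ^ t * C') * ∏ _i : Fin n, (1 - q)⁻¹, ?_⟩
  intro Q hQ
  obtain ⟨Φ, hΦ⟩ : ∃ Φ : (Fin r → ℤ) → (Fin n → ℕ),
    Φ = fun x i => Nat.log 2 (zr (lz L i x)) := ⟨_, rfl⟩
  -- a class
  have hclass : ∀ u ∈ Q.image Φ, ∑ x ∈ Q.filter (fun x => Φ x = u), term L s t x ≤
      (A₁ ^ t * C') * ∏ i : Fin n, q ^ u i := by
    intro u hu
    obtain ⟨P, hP⟩ : ∃ P, P = Q.filter fun x => Φ x = u := ⟨_, rfl⟩
    rw [← hP]
    have hPQ : ∀ x ∈ P, x ∈ Q ∧ Φ x = u := fun x hx => by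
      rw [hP, mem_filter] at hx
      exact hx
    have hPu : ∀ x ∈ P, ∀ i, Nat.log 2 (zr (lz L i x)) = u i := by
      intro x hx i
      rw [← (hPQ x hx).2, hΦ]
    have htop : Module.finrank ℚ (⊤ : Submodule ℚ (Fin r → ℚ)) = r := by
      rw [finrank_top, Module.finrank_fin_fun]
    -- the largest radical
    obtain ⟨j₀, -, hj₀⟩ := Finset.exists_max_image (univ : Finset (Fin n)) u ⟨i₀, mem_univ _⟩
    obtain ⟨v, hv⟩ : ∃ v : ℝ, v = (u j₀ : ℝ) := ⟨_, rfl⟩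
    have hv0 : 0 ≤ v := by rw [hv]; exact Nat.cast_nonneg _
    have huv : ∀ i, (u i : ℝ) ≤ v := fun i => by
      rw [hv]
      exact_mod_cast hj₀ i (mem_univ i)
    obtain ⟨B, -, hB2, -, hB4⟩ := greedy hL.ess hs ht hδ.le Hδ r ⊤ htop (fun i => (u i : ℝ)) v
      (fun i _ => ⟨Nat.cast_nonneg _, huv i⟩) hv0
    have hB2' : ∀ x : Fin r → ℚ, (∀ i ∈ B, lq L i x = 0) → x = 0 := fun x hx =>
      hB2 x (Submodule.mem_top) hx
    have hB5 : (1 + δ) * ∑ i ∈ B, (u i : ℝ) ≤ t * v + ∑ i, s i * u i := by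
      refine hB4.trans ?_
      apply add_le_add le_rfl
      apply Finset.sum_le_sum_of_subset_of_nonneg (subset_univ _)
      intro i _ _
      exact mul_nonneg (hs i) (Nat.cast_nonneg _)
    have hcard := hCB B hB2' u P (fun x hx => ⟨hQ x (hPQ x hx).1, hPu x hx⟩)
    have hpow : ∀ x ∈ P, ∀ i, (2 : ℝ) ^ u i ≤ (zr (lz L i x) : ℝ) := by
      intro x hx i
      rw [← hPu x hx i]
      exact_mod_cast Nat.pow_log_le_self 2 (zr_pos _).ne'
    have hterm : ∀ x ∈ P, term L s t x ≤ A₁ ^ t * (2 : ℝ) ^ (-(t * v + ∑ i, s i * u i)) := by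
      intro x hx
      have hnx : (2 : ℝ) ^ v ≤ A₁ * ‖x‖ := by
        refine le_trans ?_ (hnorm x (hQ x (hPQ x hx).1) j₀)
        rw [hv, Real.rpow_natCast]
        exact hpow x hx j₀
      have hA0 : 0 < A₁ := by linarith
      have hnx0 : 0 < ‖x‖ := by
        have h1 : (0 : ℝ) < (2 : ℝ) ^ v := by positivity
        by_contra h
        have h2 : ‖x‖ = 0 := le_antisymm (not_lt.1 h) (norm_nonneg _)
        rw [h2, mul_zero] at hnx
        linarith
      have hnt : ‖x‖ ^ (-t) ≤ A₁ ^ t * (2 : ℝ) ^ (-(t * v)) := by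
        have h1 : (A₁ * ‖x‖) ^ (-t) ≤ ((2 : ℝ) ^ v) ^ (-t) :=
          Real.rpow_le_rpow_of_nonpos (by positivity) hnx (by linarith)
        rw [Real.mul_rpow hA0.le hnx0.le, ← Real.rpow_mul (by norm_num)] at h1
        have h2 : A₁ ^ t * (A₁ ^ (-t) * ‖x‖ ^ (-t)) ≤ A₁ ^ t * (2 : ℝ) ^ (v * -t) :=
          mul_le_mul_of_nonneg_left h1 (by positivity)
        have h3 : A₁ ^ t * A₁ ^ (-t) = 1 := by
          rw [← Real.rpow_add hA0, add_neg_cancel, Real.rpow_zero]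
        have h4 : v * -t = -(t * v) := by ring
        rw [← mul_assoc, h3, one_mul, h4] at h2
        exact h2
      have hprd : ∏ i, (zr (lz L i x) : ℝ) ^ (-s i) ≤ (2 : ℝ) ^ (-∑ i, s i * u i) := by
        calc ∏ i, (zr (lz L i x) : ℝ) ^ (-s i) ≤ ∏ i, (2 : ℝ) ^ (-(s i * u i)) := by
              apply Finset.prod_le_prod (fun _ _ => Real.rpow_nonneg (Nat.cast_nonneg _) _)
              intro i _
              calc (zr (lz L i x) : ℝ) ^ (-s i) ≤ ((2 : ℝ) ^ u i) ^ (-s i) :=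
                    Real.rpow_le_rpow_of_nonpos (by positivity) (hpow x hx i) (by linarith [hs i])
                _ = (2 : ℝ) ^ (-(s i * u i)) := by
                    rw [← Real.rpow_natCast, ← Real.rpow_mul (by norm_num)]
                    congr 1
                    ring
          _ = _ := by
              rw [← Real.rpow_sum_of_pos (by norm_num), Finset.sum_neg_distrib]
      unfold term
      calc ‖x‖ ^ (-t) * ∏ i, (zr (lz L i x) : ℝ) ^ (-s i) ≤
            (A₁ ^ t * (2 : ℝ) ^ (-(t * v))) * (2 : ℝ) ^ (-∑ i, s i * u i) :=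
            mul_le_mul hnt hprd
              (Finset.prod_nonneg fun _ _ => Real.rpow_nonneg (Nat.cast_nonneg _) _) (by positivity)
        _ = _ := by
            rw [mul_assoc, ← Real.rpow_add (by norm_num)]
            congr 2
            ring
    obtain ⟨A, hA⟩ : ∃ A : ℝ, A = ∑ i, (u i : ℝ) := ⟨_, rfl⟩
    obtain ⟨T, hT⟩ : ∃ T : ℝ, T = t * v + ∑ i, s i * u i := ⟨_, rfl⟩
    have h5 : ∑ i ∈ B, (u i : ℝ) ≤ T / (1 + δ) := by
      rw [le_div_iff₀ (by linarith), hT]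
      linarith
    have h6 : σ * A ≤ T := by
      have h7 : σ * A ≤ ∑ i, (t / n + s i) * u i := by
        rw [hA, Finset.mul_sum]
        apply Finset.sum_le_sum
        intro i _
        exact mul_le_mul_of_nonneg_right (hσ' i) (Nat.cast_nonneg _)
      have h8 : ∑ i, (t / n + s i) * (u i : ℝ) = t / n * ∑ i, (u i : ℝ) + ∑ i, s i * u i := by
        rw [Finset.mul_sum, ← Finset.sum_add_distrib]
        apply Finset.sum_congr rfl
        intro i _
        ring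
      have h9 : ∑ i, (u i : ℝ) ≤ n * v := by
        have h10 := Finset.sum_le_card_nsmul (univ : Finset (Fin n)) (fun i => (u i : ℝ)) v
          (fun i _ => huv i)
        rw [Finset.card_univ, Fintype.card_fin, nsmul_eq_mul] at h10
        exact h10
      have h10 : t / n * ∑ i, (u i : ℝ) ≤ t * v := by
        calc t / n * ∑ i, (u i : ℝ) ≤ t / n * (n * v) := mul_le_mul_of_nonneg_left h9 (by positivity)
          _ = t * v := by field_simp
      rw [hT]
      linarith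
    rw [← hA] at hcard
    rw [← hT] at hterm
    have hA0 : 0 ≤ A := by rw [hA]; exact Finset.sum_nonneg fun _ _ => Nat.cast_nonneg _
    have h7 : ∑ i ∈ B, (u i : ℝ) + η * A + -T ≤ -η * A := by
      have h8 : T / (1 + δ) = T - δ / (1 + δ) * T := by
        field_simp
        ring
      have h9 : δ / (1 + δ) * (σ * A) ≤ δ / (1 + δ) * T :=
        mul_le_mul_of_nonneg_left h6 (by positivity)
      have h10 : δ / (1 + δ) * (σ * A) = 2 * (η * A) := by
        rw [hη]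
        field_simp
      linarith
    have hprod : ∏ i : Fin n, q ^ u i = (2 : ℝ) ^ (-η * A) := by
      rw [Finset.prod_pow_eq_pow_sum, hq, ← Real.rpow_natCast, ← Real.rpow_mul (by norm_num)]
      congr 2
      rw [hA]
      push_cast
      rfl
    have hAt : (0 : ℝ) < A₁ ^ t := Real.rpow_pos_of_pos (by linarith) _
    calc ∑ x ∈ P, term L s t x ≤ ∑ _x ∈ P, A₁ ^ t * (2 : ℝ) ^ (-T) := Finset.sum_le_sum hterm
      _ = A₁ ^ t * ((P.card : ℝ) * (2 : ℝ) ^ (-T)) := by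
          rw [Finset.sum_const, nsmul_eq_mul]
          ring
      _ ≤ A₁ ^ t * ((C B * (2 : ℝ) ^ (∑ i ∈ B, (u i : ℝ)) * (2 : ℝ) ^ (η * A)) * (2 : ℝ) ^ (-T)) := by
          apply mul_le_mul_of_nonneg_left _ hAt.le
          exact mul_le_mul_of_nonneg_right hcard (by positivity)
      _ = A₁ ^ t * (C B * (2 : ℝ) ^ (∑ i ∈ B, (u i : ℝ) + η * A + -T)) := by
          rw [Real.rpow_add (by norm_num), Real.rpow_add (by norm_num)]
          ring
      _ ≤ A₁ ^ t * (C' * (2 : ℝ) ^ (-η * A)) := by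
          apply mul_le_mul_of_nonneg_left _ hAt.le
          exact mul_le_mul (hCC B) (Real.rpow_le_rpow_of_exponent_le (by norm_num) h7)
            (by positivity) hC'0.le
      _ = _ := by rw [hprod, mul_assoc]
  have hAt : (0 : ℝ) < A₁ ^ t := Real.rpow_pos_of_pos (by linarith) _
  have hAC : 0 ≤ A₁ ^ t * C' := by positivity
  -- all the classes
  obtain ⟨N, hN⟩ : ∃ N : ℕ, N = (Q.sup fun x => ∑ i, Φ x i) + 1 := ⟨_, rfl⟩
  have hsub : Q.image Φ ⊆ Fintype.piFinset fun _ : Fin n => range N := by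
    intro v hv
    rw [mem_image] at hv
    obtain ⟨x, hx, rfl⟩ := hv
    rw [Fintype.mem_piFinset]
    intro i
    rw [mem_range, hN]
    have h1 : Φ x i ≤ ∑ i, Φ x i := Finset.single_le_sum (f := Φ x) (fun _ _ => Nat.zero_le _) (mem_univ i)
    have h2 : ∑ i, Φ x i ≤ Q.sup fun x => ∑ i, Φ x i :=
      Finset.le_sup (f := fun x => ∑ i, Φ x i) hx
    omega
  calc ∑ x ∈ Q, term L s t x = ∑ u ∈ Q.image Φ, ∑ x ∈ Q.filter (fun x => Φ x = u), term L s t x :=
        (Finset.sum_fiberwise_of_maps_to (fun x hx => mem_image_of_mem Φ hx) _).symm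
    _ ≤ ∑ u ∈ Q.image Φ, (A₁ ^ t * C') * ∏ i : Fin n, q ^ u i := Finset.sum_le_sum hclass
    _ ≤ ∑ u ∈ Fintype.piFinset fun _ : Fin n => range N, (A₁ ^ t * C') * ∏ i : Fin n, q ^ u i :=
        Finset.sum_le_sum_of_subset_of_nonneg hsub fun u _ _ =>
          mul_nonneg hAC (Finset.prod_nonneg fun _ _ => by positivity)
    _ = (A₁ ^ t * C') * ∏ _i : Fin n, ∑ j ∈ range N, q ^ j := by
        rw [← Finset.mul_sum, Finset.prod_univ_sum]
    _ ≤ (A₁ ^ t * C') * ∏ _i : Fin n, (1 - q)⁻¹ := by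
        apply mul_le_mul_of_nonneg_left _ hAC
        apply Finset.prod_le_prod
        · intro i _
          exact Finset.sum_nonneg fun _ _ => by positivity
        · intro i _
          rw [← tsum_geometric_of_lt_one hq0.le hq1]
          exact (summable_geometric_of_lt_one hq0.le hq1).sum_le_tsum _ fun _ _ => by positivity

end Pool.Agent.H583.SA
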