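import Pool.Agent.H583.SA.C
import Pool.Agent.H583.ST.F

/-!
Supersolvable arrangements: families of points attached to the subspaces, and the divergence of the sum.
-/

set_option autoImplicit false

namespace Pool.Agent.H583.SA

open Finset Pool.Agent.T2H20.ABC Pool.Agent.T2H20.AH Pool.Agent.H785R2.ABC Pool.Agent.H583.SF
  Pool.Agent.H583.WT Pool.Agent.H583.AL Pool.Agent.H583.AR Pool.Agent.H583.GD Pool.Agent.H583.PD

variable {n r : ℕ}

/-- the forms of a supersolvable arrangement are not zero -/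
lemma form_ne {L : Fin n → Fin r → ℤ} {lv : Fin n → Fin r} (hL : Sp L lv) (i : Fin n) :
    ∃ k, L i k ≠ 0 := by
  classical
  by_contra hno
  push Not at hno
  have hzero : ∀ x, lq L i x = 0 := by
    intro x
    rw [lq_apply]
    apply Finset.sum_eq_zero
    intro k _
    rw [hno k, Int.cast_zero, zero_mul]
  obtain ⟨e, he⟩ := reps_exist lv (fun _ => True) i
  obtain ⟨Φ, hΦ⟩ : ∃ Φ : (Fin r → ℚ) →ₗ[ℚ] ({k : Fin r // k ≠ lv i} → ℚ),
    Φ = LinearMap.pi fun k : {k : Fin r // k ≠ lv i} => lq L (e k.1) := ⟨_, rfl⟩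
  have h1 : Module.finrank ℚ ({k : Fin r // k ≠ lv i} → ℚ) < Module.finrank ℚ (Fin r → ℚ) := by
    rw [Module.finrank_fintype_fun_eq_card, Module.finrank_fin_fun]
    have h2 := Fintype.card_subtype_lt (p := fun k : Fin r => k ≠ lv i) (x := lv i) (by simp)
    rwa [Fintype.card_fin] at h2
  have h2 := LinearMap.ker_ne_bot_of_finrank_lt (f := Φ) h1
  obtain ⟨x, hx1, hx2⟩ := (Submodule.ne_bot_iff _).1 h2
  apply hx2
  apply hL.ess
  intro j
  have h3 := reps hL (S := fun _ => True) (fun _ _ _ _ _ _ => trivial) (Function.update e (lv i) i)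
    (fun j _ => ⟨trivial, by
      by_cases h : lv j = lv i
      · rw [h, Function.update_self]
      · rw [Function.update_of_ne h]
        exact (he (lv j) ⟨j, trivial, rfl⟩).2⟩) (x := x) (fun j _ => by
      by_cases h : lv j = lv i
      · rw [h, Function.update_self]
        exact hzero x
      · rw [Function.update_of_ne h]
        rw [LinearMap.mem_ker, hΦ] at hx1
        exact congrFun hx1 ⟨lv j, h⟩)
  exact h3 j trivial

/-- the zeros of a form in a box -/
lemma zero_card {a : Fin r → ℤ} (ha : ∃ k, a k ≠ 0) (Y : ℕ) :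
    ((Fintype.piFinset fun _ : Fin r => Icc (1 : ℤ) Y).filter
      fun x => ∑ k, a k * x k = 0).card ≤ Y ^ (r - 1) := by
  classical
  obtain ⟨k, hk⟩ := ha
  have h1 : (Fintype.piFinset fun j : Fin r => if j = k then {0} else Icc (1 : ℤ) Y).card =
      Y ^ (r - 1) := by
    rw [Fintype.card_piFinset]
    have h2 : ∀ j : Fin r, (if j = k then ({0} : Finset ℤ) else Icc (1 : ℤ) Y).card =
        if j = k then 1 else Y := by
      intro j
      split_ifs
      · rw [card_singleton]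
      · rw [Int.card_Icc]
        omega
    rw [Finset.prod_congr rfl fun j _ => h2 j, ← Finset.prod_erase_mul _ _ (mem_univ k), if_pos rfl,
      mul_one]
    have h3 : ∀ j ∈ (univ : Finset (Fin r)).erase k, (if j = k then 1 else Y) = Y := by
      intro j hj
      rw [if_neg (ne_of_mem_erase hj)]
    rw [Finset.prod_congr rfl h3, Finset.prod_const, Finset.card_erase_of_mem (mem_univ k),
      Finset.card_univ, Fintype.card_fin]
  rw [← h1]
  apply Finset.card_le_card_of_injOn (fun x => Function.update x k 0)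
  · intro x hx
    rw [Finset.mem_coe, mem_filter, Fintype.mem_piFinset] at hx
    rw [Finset.mem_coe, Fintype.mem_piFinset]
    intro j
    dsimp only
    by_cases hj : j = k
    · rw [if_pos hj, hj, Function.update_self]
      exact mem_singleton_self _
    · rw [if_neg hj, Function.update_of_ne hj]
      exact hx.1 j
  · intro x hx z hz hxz
    rw [Finset.mem_coe, mem_filter] at hx hz
    have h3 : ∀ j, j ≠ k → x j = z j := by
      intro j hj
      have := congrFun hxz j
      simp only [Function.update_of_ne hj] at this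
      exact this
    have h4 : a k * x k = a k * z k := by
      have e1 := hx.2
      have e2 := hz.2
      rw [← Finset.add_sum_erase _ _ (mem_univ k)] at e1 e2
      have e3 : ∑ j ∈ univ.erase k, a j * x j = ∑ j ∈ univ.erase k, a j * z j := by
        apply Finset.sum_congr rfl
        intro j hj
        rw [h3 j (ne_of_mem_erase hj)]
      rw [e3] at e1
      linarith
    funext j
    by_cases hj : j = k
    · rw [hj]
      exact mul_left_cancel₀ hk h4
    · exact h3 j hj

/-- **many points in a box** -/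
theorem many_top {L : Fin n → Fin r → ℤ} (hr : 2 ≤ r) (hne : ∀ i, ∃ k, L i k ≠ 0) :
    ∀ Y : ℕ, 8 * n + 1 ≤ Y → ∃ S : Finset (Fin r → ℤ), 1 / 8 * (Y : ℝ) ^ r ≤ (S.card : ℝ) ∧
      ∀ x ∈ S, Pt L x ∧ ∀ k, 0 ≤ x k ∧ x k ≤ Y := by
  classical
  obtain ⟨q, rfl⟩ : ∃ q, r = q + 2 := ⟨r - 2, by omega⟩
  intro Y hY
  obtain ⟨A, hA⟩ : ∃ A : Finset (Fin (q + 2) → ℤ), A =
    ((Pool.Agent.TH867.SB.Lb.rect Y Y) ×ˢ Fintype.piFinset fun _ : Fin q => Icc (1 : ℤ) Y).image
      fun t => Fin.cons (t.1.1 : ℤ) (Fin.cons (t.1.2 : ℤ) t.2) := ⟨_, rfl⟩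
  have hinj : Function.Injective (fun t : (ℕ × ℕ) × (Fin q → ℤ) =>
      (Fin.cons (t.1.1 : ℤ) (Fin.cons (t.1.2 : ℤ) t.2 : Fin (q + 1) → ℤ) : Fin (q + 2) → ℤ)) := by
    intro s t h
    dsimp only at h
    rw [Fin.cons_inj, Fin.cons_inj] at h
    obtain ⟨h1, h2, h3⟩ := h
    exact Prod.ext (Prod.ext (by exact_mod_cast h1) (by exact_mod_cast h2)) h3
  have hcard : 1 / 4 * (Y : ℝ) ^ (q + 2) ≤ (A.card : ℝ) := by
    rw [hA, Finset.card_image_of_injective _ hinj, card_product, Fintype.card_piFinset]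
    have h1 := Pool.Agent.TH867.SB.Lb.rect_count Y Y
    have h2 : ∏ _j : Fin q, (Icc (1 : ℤ) Y).card = Y ^ q := by
      rw [Finset.prod_const, Finset.card_univ, Fintype.card_fin, Int.card_Icc]
      congr 1
      omega
    rw [h2]
    push_cast
    calc 1 / 4 * (Y : ℝ) ^ (q + 2) = ((Y : ℝ) * Y / 4) * (Y : ℝ) ^ q := by ring
      _ ≤ _ := by
          apply mul_le_mul_of_nonneg_right _ (by positivity)
          linarith
  have hAm : ∀ x ∈ A, univ.gcd x = 1 ∧ ∀ k, 1 ≤ x k ∧ x k ≤ Y := by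
    intro x hx
    rw [hA, mem_image] at hx
    obtain ⟨t, ht, rfl⟩ := hx
    rw [mem_product] at ht
    unfold Pool.Agent.TH867.SB.Lb.rect at ht
    rw [mem_filter, mem_product, mem_Ioc, mem_Ioc, Fintype.mem_piFinset] at ht
    obtain ⟨⟨⟨⟨a1, a2⟩, a3, a4⟩, a5⟩, a7⟩ := ht
    constructor
    · obtain ⟨x, hx⟩ : ∃ x : Fin (q + 2) → ℤ, x = Fin.cons (t.1.1 : ℤ) (Fin.cons (t.1.2 : ℤ) t.2) :=
        ⟨_, rfl⟩
      rw [← hx]
      have h1 : univ.gcd x ∣ (t.1.1 : ℤ) := by
        have := Finset.gcd_dvd (f := x) (mem_univ (0 : Fin (q + 2)))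
        rw [hx] at this ⊢
        exact this
      have h2 : univ.gcd x ∣ (t.1.2 : ℤ) := by
        have := Finset.gcd_dvd (f := x) (mem_univ (1 : Fin (q + 2)))
        rw [hx] at this ⊢
        exact this
      have h3 : IsCoprime (t.1.1 : ℤ) (t.1.2 : ℤ) := Nat.isCoprime_iff_coprime.2 a5
      have h4 := h3.isUnit_of_dvd' h1 h2
      have h5 := Finset.normalize_gcd (s := univ) (f := x)
      rw [← h5]
      exact normalize_eq_one.2 h4
    · intro k
      refine Fin.cases ?_ (fun k => ?_) k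
      · rw [Fin.cons_zero]
        omega
      rw [Fin.cons_succ]
      refine Fin.cases ?_ (fun k => ?_) k
      · rw [Fin.cons_zero]
        omega
      rw [Fin.cons_succ]
      have := a7 k
      rw [mem_Icc] at this
      exact this
  obtain ⟨S, hS⟩ : ∃ S, S = A.filter fun x => ∀ i, lz L i x ≠ 0 := ⟨_, rfl⟩
  have hsub : A ⊆ S ∪ (univ : Finset (Fin n)).biUnion fun i =>
      (Fintype.piFinset fun _ : Fin (q + 2) => Icc (1 : ℤ) Y).filter fun x => ∑ k, L i k * x k = 0 := by
    intro x hx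
    rw [mem_union]
    by_cases h : ∀ i, lz L i x ≠ 0
    · left
      rw [hS, mem_filter]
      exact ⟨hx, h⟩
    · right
      push Not at h
      obtain ⟨i, hi⟩ := h
      rw [mem_biUnion]
      refine ⟨i, mem_univ _, ?_⟩
      rw [mem_filter, Fintype.mem_piFinset]
      exact ⟨fun k => mem_Icc.2 ((hAm x hx).2 k), hi⟩
  have h1 : A.card ≤ S.card + n * Y ^ (q + 1) := by
    refine (card_le_card hsub).trans ((card_union_le _ _).trans ?_)
    apply Nat.add_le_add_left
    refine (card_biUnion_le_card_mul _ _ (Y ^ (q + 1)) fun i _ => ?_).trans ?_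
    · exact zero_card (hne i) Y
    · rw [Finset.card_univ, Fintype.card_fin]
  refine ⟨S, ?_, ?_⟩
  · have h2 : (A.card : ℝ) ≤ S.card + n * (Y : ℝ) ^ (q + 1) := by exact_mod_cast h1
    have h3 : (8 : ℝ) * n ≤ Y := by
      have : 8 * n ≤ Y := by omega
      exact_mod_cast this
    have h4 : (0 : ℝ) ≤ (Y : ℝ) ^ (q + 1) := by positivity
    have h5 : (8 * n : ℝ) * (Y : ℝ) ^ (q + 1) ≤ Y * (Y : ℝ) ^ (q + 1) :=
      mul_le_mul_of_nonneg_right h3 h4
    have h6 : (Y : ℝ) * (Y : ℝ) ^ (q + 1) = (Y : ℝ) ^ (q + 2) := by ring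
    linarith
  · intro x hx
    rw [hS, mem_filter] at hx
    obtain ⟨h2, h3⟩ := hAm x hx.1
    exact ⟨⟨h2, hx.2⟩, fun k => ⟨by have := (h3 k).1; omega, (h3 k).2⟩⟩

/-- an integral basis of a subspace -/
lemma int_basis (W : Submodule ℚ (Fin r → ℚ)) : ∃ w : Fin (Module.finrank ℚ W) → Fin r → ℤ,
    (∀ c, (fun k => (w c k : ℚ)) ∈ W) ∧ LinearIndependent ℚ fun c => (fun k => (w c k : ℚ)) := by
  classical
  obtain ⟨b, hb⟩ : ∃ b : Module.Basis (Fin (Module.finrank ℚ W)) ℚ W, b = Module.finBasis ℚ W :=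
    ⟨_, rfl⟩
  obtain ⟨D, hD⟩ : ∃ D : ℕ, D = ∏ c, ∏ k, ((b c : Fin r → ℚ) k).den := ⟨_, rfl⟩
  have hD0 : D ≠ 0 := by
    rw [hD]
    exact Finset.prod_ne_zero_iff.2 fun c _ => Finset.prod_ne_zero_iff.2 fun k _ => Rat.den_ne_zero _
  have hdvd : ∀ c k, ((b c : Fin r → ℚ) k).den ∣ D := by
    intro c k
    rw [hD]
    exact (Finset.dvd_prod_of_mem (fun k => ((b c : Fin r → ℚ) k).den) (mem_univ k)).trans
      (Finset.dvd_prod_of_mem (fun c => ∏ k, ((b c : Fin r → ℚ) k).den) (mem_univ c))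
  have hw : ∀ c k, ∃ v : ℤ, (v : ℚ) = (D : ℚ) * (b c : Fin r → ℚ) k := by
    intro c k
    obtain ⟨d, hd⟩ := hdvd c k
    refine ⟨d * ((b c : Fin r → ℚ) k).num, ?_⟩
    rw [hd]
    push_cast
    have h1 : (b c : Fin r → ℚ) k * ((b c : Fin r → ℚ) k).den = ((b c : Fin r → ℚ) k).num :=
      Rat.mul_den_eq_num _
    rw [← h1]
    ring
  choose w hw using hw
  have hfun : ∀ c, (fun k => (w c k : ℚ)) = (D : ℚ) • (b c : Fin r → ℚ) := by
    intro c
    funext k
    rw [hw, Pi.smul_apply, smul_eq_mul]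
  refine ⟨w, ?_, ?_⟩
  · intro c
    rw [hfun]
    exact W.smul_mem _ (b c).2
  · have h1 : (fun c => (fun k => (w c k : ℚ))) = fun c => (D : ℚ) • (b c : Fin r → ℚ) := by
      funext c
      exact hfun c
    rw [h1]
    have h2 : LinearIndependent ℚ fun c => (b c : Fin r → ℚ) := by
      have := b.linearIndependent.map' W.subtype (Submodule.ker_subtype W)
      exact this
    have hD' : (D : ℚ) ≠ 0 := by exact_mod_cast hD0
    rw [Fintype.linearIndependent_iff] at h2 ⊢
    intro g hg c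
    have h3 := h2 (fun c => g c * D) (by
      rw [← hg]
      apply Finset.sum_congr rfl
      intro c _
      rw [smul_smul]) c
    exact (mul_eq_zero.1 h3).resolve_right hD'

lemma lz_cast (L : Fin n → Fin r → ℤ) (i : Fin n) (x : Fin r → ℤ) :
    (lz L i x : ℚ) = lq L i (fun k => (x k : ℚ)) := by
  unfold lz
  rw [lq_apply]
  push_cast
  rfl

lemma lz_add_mul (L : Fin n → Fin r → ℤ) (i : Fin n) (x : Fin r → ℤ) (M : ℤ) {κ : ℕ} (t : Fin κ → ℤ)
    (w : Fin κ → Fin r → ℤ) :
    lz L i (fun k => x k + M * ∑ c, t c * w c k) = lz L i x + M * ∑ c, t c * lz L i (w c) := by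
  unfold lz
  have h1 : ∀ k, L i k * (x k + M * ∑ c, t c * w c k) =
      L i k * x k + ∑ c, M * (t c * (L i k * w c k)) := by
    intro k
    rw [mul_add, Finset.mul_sum, Finset.mul_sum]
    congr 1
    apply Finset.sum_congr rfl
    intro c _
    ring
  rw [Finset.sum_congr rfl fun k _ => h1 k, Finset.sum_add_distrib, Finset.sum_comm]
  congr 1
  rw [Finset.mul_sum]
  apply Finset.sum_congr rfl
  intro c _
  rw [Finset.mul_sum, Finset.mul_sum]

/-- **many points attached to a subspace** -/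
theorem many {L : Fin n → Fin r → ℤ} (hr : 2 ≤ r) (hne : ∀ i, ∃ k, L i k ≠ 0)
    (W : Submodule ℚ (Fin r → ℚ)) : ∃ (c R : ℝ) (Y₀ : ℕ), 0 < c ∧ 1 ≤ R ∧
    ∀ Y : ℕ, Y₀ ≤ Y → 1 ≤ Y → ∃ S : Finset (Fin r → ℤ), c * (Y : ℝ) ^ (Module.finrank ℚ W) ≤ (S.card : ℝ) ∧
      ∀ x ∈ S, (Pt L x ∧ ‖x‖ ≤ R * Y) ∧
        ∀ i, (zr (lz L i x) : ℝ) ≤ R * Y ∧ (i ∉ crs L W → (zr (lz L i x) : ℝ) ≤ R) := by
  classical
  by_cases hW : ∀ i, i ∈ crs L W
  · refine ⟨1 / 8, 1 + ∑ i, ∑ k, |(L i k : ℝ)|, 8 * n + 1, by norm_num, ?_, ?_⟩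
    · have : (0 : ℝ) ≤ ∑ i, ∑ k, |(L i k : ℝ)| :=
        Finset.sum_nonneg fun _ _ => Finset.sum_nonneg fun _ _ => abs_nonneg _
      linarith
    intro Y hY hY1
    obtain ⟨S, hS1, hS2⟩ := many_top hr hne Y hY
    have hY1' : (1 : ℝ) ≤ Y := by exact_mod_cast hY1
    refine ⟨S, ?_, ?_⟩
    · refine le_trans ?_ hS1
      apply mul_le_mul_of_nonneg_left _ (by norm_num)
      apply pow_le_pow_right₀ hY1'
      have := Submodule.finrank_le W
      rwa [Module.finrank_fin_fun] at this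
    · intro x hx
      obtain ⟨h1, h2⟩ := hS2 x hx
      have hR1 : (1 : ℝ) ≤ 1 + ∑ i, ∑ k, |(L i k : ℝ)| := by
        have : (0 : ℝ) ≤ ∑ i, ∑ k, |(L i k : ℝ)| :=
          Finset.sum_nonneg fun _ _ => Finset.sum_nonneg fun _ _ => abs_nonneg _
        linarith
      have hxn : ‖x‖ ≤ Y := by
        rw [pi_norm_le_iff_of_nonneg (by linarith)]
        intro k
        rw [Int.norm_eq_abs]
        have c1 : (0 : ℝ) ≤ x k := by exact_mod_cast (h2 k).1
        have c2 : (x k : ℝ) ≤ Y := by exact_mod_cast (h2 k).2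
        rw [abs_of_nonneg c1]
        exact c2
      refine ⟨⟨h1, hxn.trans (le_mul_of_one_le_left (by linarith) hR1)⟩,
        fun i => ⟨?_, fun h => absurd (hW i) h⟩⟩
      refine (Pool.Agent.H583.ST.zr_le_real (h1.ne i)).trans ?_
      unfold lz
      push_cast
      calc |∑ k, (L i k : ℝ) * (x k : ℝ)| ≤ ∑ k, |(L i k : ℝ) * (x k : ℝ)| := Finset.abs_sum_le_sum_abs _ _
        _ ≤ ∑ k, |(L i k : ℝ)| * Y := by
            apply Finset.sum_le_sum
            intro k _
            rw [abs_mul]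
            apply mul_le_mul_of_nonneg_left _ (abs_nonneg _)
            have c1 : (0 : ℝ) ≤ x k := by exact_mod_cast (h2 k).1
            have c2 : (x k : ℝ) ≤ Y := by exact_mod_cast (h2 k).2
            rw [abs_of_nonneg c1]
            exact c2
        _ = (∑ k, |(L i k : ℝ)|) * Y := by rw [Finset.sum_mul]
        _ ≤ _ := by
            apply mul_le_mul_of_nonneg_right _ (by linarith)
            have : ∑ k, |(L i k : ℝ)| ≤ ∑ i, ∑ k, |(L i k : ℝ)| :=
              Finset.single_le_sum (f := fun i => ∑ k, |(L i k : ℝ)|)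
                (fun _ _ => Finset.sum_nonneg fun _ _ => abs_nonneg _) (mem_univ i)
            linarith
  · push Not at hW
    obtain ⟨i₁, hi₁⟩ := hW
    obtain ⟨S₀, hS₀, hS₀'⟩ := many_top hr hne (8 * n + 1) le_rfl
    have hS₀ne : S₀.Nonempty := by
      rw [Finset.nonempty_iff_ne_empty]
      intro h
      rw [h, card_empty, Nat.cast_zero] at hS₀
      have : (0 : ℝ) < 1 / 8 * ((8 * n + 1 : ℕ) : ℝ) ^ r := by positivity
      linarith
    obtain ⟨y, hy⟩ := hS₀ne
    have hyP := (hS₀' y hy).1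
    obtain ⟨M, hM⟩ : ∃ M : ℤ, M = 2 * ∏ i, |lz L i y| := ⟨_, rfl⟩
    have hprod : ∀ i, |lz L i y| ∣ ∏ i, |lz L i y| := fun i =>
      Finset.dvd_prod_of_mem (fun i => |lz L i y|) (mem_univ i)
    have hprod0 : 0 < ∏ i, |lz L i y| := Finset.prod_pos fun i _ => abs_pos.2 (hyP.ne i)
    have hMdvd : ∀ i, lz L i y ∣ M := fun i => by
      rw [hM]
      exact ((abs_dvd _ _).1 (hprod i)).mul_left 2
    have hMlt : ∀ i, |lz L i y| < M := fun i => by
      have := Int.le_of_dvd hprod0 (hprod i)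
      rw [hM]
      linarith
    have hM0 : 0 < M := by rw [hM]; linarith
    obtain ⟨w, hw1, hw2⟩ := int_basis W
    obtain ⟨κ, hκ⟩ : ∃ κ, κ = Module.finrank ℚ W := ⟨_, rfl⟩
    obtain ⟨R₂, hR₂⟩ : ∃ R₂ : ℝ, R₂ = ∑ k, (|(y k : ℝ)| + M * ∑ c, |(w c k : ℝ)|) := ⟨_, rfl⟩
    obtain ⟨R, hR⟩ : ∃ R : ℝ, R = 1 + R₂ + ∑ i, (|(lz L i y : ℝ)| + M * ∑ c, |(lz L i (w c) : ℝ)|) :=
      ⟨_, rfl⟩
    have hM0' : (0 : ℝ) < M := by exact_mod_cast hM0
    have hRn : ∀ i, 0 ≤ |(lz L i y : ℝ)| + M * ∑ c, |(lz L i (w c) : ℝ)| := fun i =>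
      add_nonneg (abs_nonneg _) (mul_nonneg hM0'.le (Finset.sum_nonneg fun _ _ => abs_nonneg _))
    have hRk : ∀ k, 0 ≤ |(y k : ℝ)| + M * ∑ c, |(w c k : ℝ)| := fun k =>
      add_nonneg (abs_nonneg _) (mul_nonneg hM0'.le (Finset.sum_nonneg fun _ _ => abs_nonneg _))
    have hR₂0 : 0 ≤ R₂ := by rw [hR₂]; exact Finset.sum_nonneg fun k _ => hRk k
    have hR₂k : ∀ k, |(y k : ℝ)| + M * ∑ c, |(w c k : ℝ)| ≤ R := by
      intro k
      have h1 := Finset.single_le_sum (f := fun k => |(y k : ℝ)| + M * ∑ c, |(w c k : ℝ)|)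
        (fun k _ => hRk k) (mem_univ k)
      have h2 := Finset.sum_nonneg (s := (univ : Finset (Fin n))) fun i _ => hRn i
      rw [hR]
      rw [← hR₂] at h1
      linarith
    have hRi : ∀ i, |(lz L i y : ℝ)| + M * ∑ c, |(lz L i (w c) : ℝ)| ≤ R := by
      intro i
      have := Finset.single_le_sum (f := fun i => |(lz L i y : ℝ)| + M * ∑ c, |(lz L i (w c) : ℝ)|)
        (fun i _ => hRn i) (mem_univ i)
      rw [hR]
      linarith
    have hR1 : 1 ≤ R := by
      have := Finset.sum_nonneg (s := (univ : Finset (Fin n))) fun i _ => hRn i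
      rw [hR]
      linarith
    refine ⟨1, R, 0, one_pos, hR1, ?_⟩
    intro Y _ hY1
    have hY1' : (1 : ℝ) ≤ Y := by exact_mod_cast hY1
    obtain ⟨G, hG⟩ : ∃ G : (Fin (Module.finrank ℚ W) → ℤ) → (Fin r → ℤ),
      G = fun t k => y k + M * ∑ c, t c * w c k := ⟨_, rfl⟩
    have hGinj : Function.Injective G := by
      intro t t' h
      rw [Fintype.linearIndependent_iff] at hw2
      have h1 := hw2 (fun c => ((t c - t' c : ℤ) : ℚ)) (by
        funext k
        rw [Finset.sum_apply, Pi.zero_apply]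
        have h2 := congrFun h k
        rw [hG] at h2
        dsimp only at h2
        have h3 : ∑ c, t c * w c k = ∑ c, t' c * w c k := mul_left_cancel₀ hM0.ne' (by linarith)
        have h4 : ∑ c, (t c - t' c) * w c k = 0 := by
          rw [Finset.sum_congr rfl fun c _ => sub_mul (t c) (t' c) (w c k), Finset.sum_sub_distrib, h3,
            sub_self]
        simp only [Pi.smul_apply, smul_eq_mul]
        exact_mod_cast h4)
      funext c
      have h5 := h1 c
      have h6 : t c - t' c = 0 := by exact_mod_cast h5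
      linarith
    refine ⟨(Fintype.piFinset fun _ : Fin (Module.finrank ℚ W) => Icc (1 : ℤ) Y).image G, ?_, ?_⟩
    · rw [Finset.card_image_of_injective _ hGinj, Fintype.card_piFinset, Finset.prod_const,
        Finset.card_univ, Fintype.card_fin, Int.card_Icc]
      have : ((Y : ℤ) + 1 - 1).toNat = Y := by omega
      rw [this, one_mul]
      push_cast
      exact le_rfl
    · intro x hx
      rw [mem_image] at hx
      obtain ⟨t, ht, rfl⟩ := hx
      rw [Fintype.mem_piFinset] at ht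
      have hval : ∀ i, lz L i (G t) = lz L i y + M * ∑ c, t c * lz L i (w c) := by
        intro i
        rw [hG]
        exact lz_add_mul L i y M t w
      have hzero : ∀ i, i ∉ crs L W → ∀ c, lz L i (w c) = 0 := by
        intro i hi c
        by_contra h
        apply hi
        rw [mem_crs]
        refine ⟨_, hw1 c, ?_⟩
        rw [← lz_cast]
        exact_mod_cast h
      have hfix : ∀ i, i ∉ crs L W → lz L i (G t) = lz L i y := by
        intro i hi
        rw [hval i, Finset.sum_eq_zero (fun c _ => by rw [hzero i hi c, mul_zero]), mul_zero, add_zero]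
      have hPt : Pt L (G t) := by
        refine ⟨?_, ?_⟩
        · obtain ⟨g, hg⟩ : ∃ g, g = univ.gcd (G t) := ⟨_, rfl⟩
          have hgd : ∀ k, g ∣ G t k := fun k => by
            rw [hg]
            exact Finset.gcd_dvd (mem_univ k)
          have h1 : g ∣ lz L i₁ (G t) := by
            unfold lz
            exact Finset.dvd_sum fun k _ => (hgd k).mul_left _
          rw [hfix i₁ hi₁] at h1
          have h2 : g ∣ M := h1.trans (hMdvd i₁)
          have h3 : ∀ k, g ∣ y k := by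
            intro k
            have h4 := hgd k
            rw [hG] at h4
            exact (dvd_add_left (h2.mul_right _)).1 h4
          have h4 : g ∣ univ.gcd y := Finset.dvd_gcd fun k _ => h3 k
          rw [hyP.gcd] at h4
          have h5 := Finset.normalize_gcd (s := univ) (f := G t)
          rw [← h5, ← hg]
          exact normalize_eq_one.2 (isUnit_of_dvd_one h4)
        · intro i h
          rw [hval i] at h
          have h1 : M ∣ lz L i y := ⟨-∑ c, t c * lz L i (w c), by linarith⟩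
          exact hyP.ne i (Int.eq_zero_of_abs_lt_dvd h1 (hMlt i))
      have ht' : ∀ c, |(t c : ℝ)| ≤ Y := by
        intro c
        have := ht c
        rw [mem_Icc] at this
        have c1 : (1 : ℝ) ≤ t c := by exact_mod_cast this.1
        have c2 : (t c : ℝ) ≤ Y := by exact_mod_cast this.2
        rw [abs_of_nonneg (by linarith)]
        exact c2
      have hnx : ‖G t‖ ≤ R * Y := by
        rw [pi_norm_le_iff_of_nonneg (by positivity)]
        intro k
        rw [Int.norm_eq_abs, hG]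
        push_cast
        have hsum : |∑ c, (t c : ℝ) * (w c k : ℝ)| ≤ Y * ∑ c, |(w c k : ℝ)| := by
          refine (Finset.abs_sum_le_sum_abs _ _).trans ?_
          rw [Finset.mul_sum]
          apply Finset.sum_le_sum
          intro c _
          rw [abs_mul]
          exact mul_le_mul_of_nonneg_right (ht' c) (abs_nonneg _)
        calc |(y k : ℝ) + M * ∑ c, (t c : ℝ) * (w c k : ℝ)| ≤
              |(y k : ℝ)| + |(M : ℝ) * ∑ c, (t c : ℝ) * (w c k : ℝ)| := abs_add_le _ _
          _ ≤ |(y k : ℝ)| * Y + M * (Y * ∑ c, |(w c k : ℝ)|) := by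
              rw [abs_mul, abs_of_pos hM0']
              apply add_le_add
              · exact le_mul_of_one_le_right (abs_nonneg _) hY1'
              · exact mul_le_mul_of_nonneg_left hsum hM0'.le
          _ = (|(y k : ℝ)| + M * ∑ c, |(w c k : ℝ)|) * Y := by ring
          _ ≤ R * Y := mul_le_mul_of_nonneg_right (hR₂k k) (by linarith)
      refine ⟨⟨hPt, hnx⟩, fun i => ⟨?_, fun hi => ?_⟩⟩
      · refine (Pool.Agent.H583.ST.zr_le_real (hPt.ne i)).trans ?_
        rw [hval i]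
        push_cast
        have hsum : |∑ c, (t c : ℝ) * (lz L i (w c) : ℝ)| ≤ Y * ∑ c, |(lz L i (w c) : ℝ)| := by
          refine (Finset.abs_sum_le_sum_abs _ _).trans ?_
          rw [Finset.mul_sum]
          apply Finset.sum_le_sum
          intro c _
          rw [abs_mul]
          exact mul_le_mul_of_nonneg_right (ht' c) (abs_nonneg _)
        calc |(lz L i y : ℝ) + M * ∑ c, (t c : ℝ) * (lz L i (w c) : ℝ)| ≤
              |(lz L i y : ℝ)| + |(M : ℝ) * ∑ c, (t c : ℝ) * (lz L i (w c) : ℝ)| := abs_add_le _ _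
          _ ≤ |(lz L i y : ℝ)| * Y + M * (Y * ∑ c, |(lz L i (w c) : ℝ)|) := by
              rw [abs_mul, abs_of_pos hM0']
              apply add_le_add
              · exact le_mul_of_one_le_right (abs_nonneg _) hY1'
              · exact mul_le_mul_of_nonneg_left hsum hM0'.le
          _ = (|(lz L i y : ℝ)| + M * ∑ c, |(lz L i (w c) : ℝ)|) * Y := by ring
          _ ≤ R * Y := mul_le_mul_of_nonneg_right (hRi i) (by linarith)
      · refine (Pool.Agent.H583.ST.zr_le_real (hPt.ne i)).trans ?_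
        rw [hfix i hi]
        refine le_trans ?_ (hRi i)
        have : 0 ≤ (M : ℝ) * ∑ c, |(lz L i (w c) : ℝ)| :=
          mul_nonneg hM0'.le (Finset.sum_nonneg fun _ _ => abs_nonneg _)
        linarith

/-- **divergence** -/
theorem dvg {L : Fin n → Fin r → ℤ} (hr : 2 ≤ r) (hne : ∀ i, ∃ k, L i k ≠ 0) (s : Fin n → ℝ)
    (hs : ∀ i, 0 ≤ s i) (t : ℝ) (ht : 0 ≤ t) (W : Submodule ℚ (Fin r → ℚ)) (hW : W ≠ ⊥)
    (h : t + ∑ i ∈ crs L W, s i ≤ (Module.finrank ℚ W : ℝ)) :
    ¬ Summable fun x : {x : Fin r → ℤ // Pt L x} => term L s t x.1 := by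
  classical
  intro hsum
  obtain ⟨c, R, Y₀, hc, hR, hmany⟩ := many hr hne W
  obtain ⟨c', hc'⟩ : ∃ c' : ℝ, c' = R ^ (-t) * ∏ i, R ^ (-s i) := ⟨_, rfl⟩
  have hR0 : 0 < R := by linarith
  have hc'0 : 0 < c' := by
    rw [hc']
    exact mul_pos (Real.rpow_pos_of_pos hR0 _) (Finset.prod_pos fun i _ => Real.rpow_pos_of_pos hR0 _)
  obtain ⟨s₀, hs₀⟩ := (summable_iff_vanishing_norm.1 hsum) (c * c' / 2) (by positivity)
  obtain ⟨Y, hY⟩ : ∃ Y : ℕ, Y = ⌈2 * (s₀.card : ℝ) / c⌉₊ + Y₀ + 1 := ⟨_, rfl⟩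
  have hY1 : (1 : ℝ) ≤ Y := by exact_mod_cast (by omega : 1 ≤ Y)
  have hY0 : (0 : ℝ) < Y := by linarith
  have hYc : 2 * (s₀.card : ℝ) ≤ c * Y := by
    have h1 : 2 * (s₀.card : ℝ) / c ≤ Y := by
      rw [hY]
      push_cast
      have := Nat.le_ceil (2 * (s₀.card : ℝ) / c)
      have h2 : (0 : ℝ) ≤ Y₀ := Nat.cast_nonneg _
      linarith
    rw [div_le_iff₀ hc] at h1
    linarith
  obtain ⟨S, hS1, hS2⟩ := hmany Y (by omega) (by omega)
  obtain ⟨k, hk⟩ : ∃ k : ℕ, Module.finrank ℚ W = k + 1 := by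
    have : Module.finrank ℚ W ≠ 0 := by
      rw [Ne, Submodule.finrank_eq_zero]
      exact hW
    exact ⟨Module.finrank ℚ W - 1, by omega⟩
  rw [hk] at hS1 h
  have hterm : ∀ x ∈ S, c' * ((Y : ℝ) ^ (k + 1))⁻¹ ≤ term L s t x := by
    intro x hx
    obtain ⟨⟨g0, g1⟩, g2⟩ := hS2 x hx
    have hx0 : 0 < ‖x‖ := by
      rw [norm_pos_iff]
      intro h0
      have h1 := g0.gcd
      rw [h0] at h1
      have h2 : Finset.univ.gcd (0 : Fin r → ℤ) = 0 := by
        rw [Finset.gcd_eq_zero_iff]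
        intro k _
        rfl
      rw [h2] at h1
      exact zero_ne_one h1
    have h2 : c' * (Y : ℝ) ^ (-(t + ∑ i ∈ crs L W, s i)) ≤ term L s t x := by
      unfold term
      have h3 : (Y : ℝ) ^ (-∑ i ∈ crs L W, s i) = ∏ i, if i ∈ crs L W then (Y : ℝ) ^ (-s i) else 1 := by
        rw [← Finset.sum_neg_distrib, Real.rpow_sum_of_pos hY0, Finset.prod_ite_mem, Finset.univ_inter]
      have h4 : (Y : ℝ) ^ (-(t + ∑ i ∈ crs L W, s i)) = (Y : ℝ) ^ (-t) * (Y : ℝ) ^ (-∑ i ∈ crs L W, s i) := by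
        rw [← Real.rpow_add hY0]
        congr 1
        ring
      have h5 : R ^ (-t) * (Y : ℝ) ^ (-t) ≤ ‖x‖ ^ (-t) := by
        rw [← Real.mul_rpow hR0.le hY0.le]
        exact Real.rpow_le_rpow_of_nonpos hx0 g1 (by linarith)
      have h6 : (∏ i, R ^ (-s i)) * (Y : ℝ) ^ (-∑ i ∈ crs L W, s i) ≤
          ∏ i, (zr (lz L i x) : ℝ) ^ (-s i) := by
        rw [h3, ← Finset.prod_mul_distrib]
        apply Finset.prod_le_prod
        · intro i _
          apply mul_nonneg (Real.rpow_nonneg hR0.le _)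
          split_ifs
          · exact Real.rpow_nonneg hY0.le _
          · exact zero_le_one
        · intro i _
          have hz : (0 : ℝ) < zr (lz L i x) := by exact_mod_cast zr_pos _
          obtain ⟨k1, k2⟩ := g2 i
          split_ifs with hi
          · rw [← Real.mul_rpow hR0.le hY0.le]
            exact Real.rpow_le_rpow_of_nonpos hz k1 (by linarith [hs i])
          · rw [mul_one]
            exact Real.rpow_le_rpow_of_nonpos hz (k2 hi) (by linarith [hs i])
      calc c' * (Y : ℝ) ^ (-(t + ∑ i ∈ crs L W, s i)) =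
            (R ^ (-t) * (Y : ℝ) ^ (-t)) * ((∏ i, R ^ (-s i)) * (Y : ℝ) ^ (-∑ i ∈ crs L W, s i)) := by
            rw [hc', h4]
            ring
        _ ≤ _ := by
            apply mul_le_mul h5 h6
            · exact mul_nonneg (Finset.prod_nonneg fun i _ => Real.rpow_nonneg hR0.le _)
                (Real.rpow_nonneg hY0.le _)
            · exact Real.rpow_nonneg hx0.le _
    refine le_trans ?_ h2
    apply mul_le_mul_of_nonneg_left _ hc'0.le
    rw [← Real.rpow_natCast, ← Real.rpow_neg hY0.le]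
    apply Real.rpow_le_rpow_of_exponent_le hY1
    linarith
  obtain ⟨T, hT⟩ : ∃ T, T = (S.subtype fun x => Pt L x) \ s₀ := ⟨_, rfl⟩
  have hdis : Disjoint T s₀ := by
    rw [hT]
    exact Finset.sdiff_disjoint
  have hcard : (S.card : ℝ) - s₀.card ≤ T.card := by
    have h1 : (S.subtype fun x => Pt L x).card = S.card := by
      rw [Finset.card_subtype, Finset.filter_true_of_mem fun x hx => (hS2 x hx).1.1]
    have h2 := Finset.le_card_sdiff s₀ (S.subtype fun x => Pt L x)
    rw [h1, ← hT] at h2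
    have h3 : S.card ≤ T.card + s₀.card := by omega
    have h4 : (S.card : ℝ) ≤ T.card + s₀.card := by exact_mod_cast h3
    linarith
  have h3 := hs₀ T hdis
  have h4 : (T.card : ℝ) * (c' * ((Y : ℝ) ^ (k + 1))⁻¹) ≤ ∑ x ∈ T, term L s t x.1 := by
    rw [← nsmul_eq_mul]
    apply Finset.card_nsmul_le_sum
    intro x hx
    apply hterm
    rw [hT, mem_sdiff, mem_subtype] at hx
    exact hx.1
  have hYk : (Y : ℝ) ≤ (Y : ℝ) ^ (k + 1) := le_self_pow₀ hY1 (by omega)
  have hYk0 : (0 : ℝ) < (Y : ℝ) ^ (k + 1) := by positivity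
  have h5 : c / 2 * (Y : ℝ) ^ (k + 1) ≤ T.card := by
    have h6 : (s₀.card : ℝ) ≤ c / 2 * (Y : ℝ) ^ (k + 1) := by
      have := mul_le_mul_of_nonneg_left hYk hc.le
      linarith
    linarith
  have h6 : c / 2 * (Y : ℝ) ^ (k + 1) * (c' * ((Y : ℝ) ^ (k + 1))⁻¹) ≤ ∑ x ∈ T, term L s t x.1 :=
    (mul_le_mul_of_nonneg_right h5 (by positivity)).trans h4
  have h7 : c / 2 * (Y : ℝ) ^ (k + 1) * (c' * ((Y : ℝ) ^ (k + 1))⁻¹) = c * c' / 2 := by
    field_simp
  rw [h7] at h6
  have h8 := (le_abs_self _).trans_lt (by rwa [Real.norm_eq_abs] at h3)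
  linarith

/-- **the sum converges exactly if the exponent of the height and the exponents of the forms that do not
vanish on a subspace have a sum greater than its dimension** -/
theorem main {L : Fin n → Fin r → ℤ} (hr : 2 ≤ r) (hL : Ar L)
    (s : Fin n → ℝ) (hs : ∀ i, 0 ≤ s i) (t : ℝ) (ht : 0 ≤ t) (hst : ∀ i, 0 < t + s i) :
    (Summable fun x : {x : Fin r → ℤ // Pt L x} => term L s t x.1) ↔
    ∀ W : Submodule ℚ (Fin r → ℚ), W ≠ ⊥ → (Module.finrank ℚ W : ℝ) < t + ∑ i ∈ crs L W, s i := by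
  constructor
  · intro h W hW
    by_contra h1
    exact dvg hr hL.ne s hs t ht W hW (not_lt.1 h1) h
  · intro H
    have hn : 0 < n := by
      rcases Nat.eq_zero_or_pos n with h0 | h0
      · exfalso
        subst h0
        have h1 := hL.ess (fun _ => 1) (fun i => i.elim0)
        have h2 := congrFun h1 ⟨0, by omega⟩
        exact one_ne_zero h2
      · exact h0
    obtain ⟨C, hC⟩ := conv hL ⟨0, hn⟩ s hs t ht hst H
    obtain ⟨F, hF⟩ : ∃ F : {x : Fin r → ℤ // Pt L x} → ℝ, F = fun x => term L s t x.1 := ⟨_, rfl⟩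
    have hF0 : 0 ≤ F := by
      intro x
      rw [hF]
      exact term_nonneg L s t x.1
    rw [← hF]
    refine summable_of_sum_le (c := C) hF0 ?_
    intro u
    have h1 := hC (u.map (Function.Embedding.subtype _)) (by
      intro x hx
      rw [mem_map] at hx
      obtain ⟨y, -, rfl⟩ := hx
      exact y.2)
    rw [Finset.sum_map] at h1
    rw [hF]
    exact h1

/-- supersolvable arrangements -/
theorem Sp.ar {L : Fin n → Fin r → ℤ} {lv : Fin n → Fin r} (hL : Sp L lv) (hI : Irr L) : Ar L :=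
  ⟨form_ne hL, hL.ess, hI, fun _ hS hsp => closure hL hS hsp⟩

end Pool.Agent.H583.SA
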