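import Pool.Agent.H583.SA.D

/-!
The arrangement of the forms `a`, `b`, `a + b`: the sums over the abc triples and Oesterlé's weak form of
the abc conjecture.
-/

set_option autoImplicit false

namespace Pool.Agent.H583.SA

open Finset Pool.Agent.T2H20.ABC Pool.Agent.T2H20.AH Pool.Agent.H785R2.ABC Pool.Agent.H583.SF
  Pool.Agent.H583.WT Pool.Agent.H583.AL Pool.Agent.H583.AR Pool.Agent.H583.GD Pool.Agent.H583.PD

/-- the forms `a`, `b`, `a + b` -/
def abc : Fin 3 → Fin 2 → ℤ := ![![1, 0], ![0, 1], ![1, 1]]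

lemma lq0 (x : Fin 2 → ℚ) : lq abc 0 x = x 0 := by
  rw [lq_apply, Fin.sum_univ_two]
  simp [abc]

lemma lq1 (x : Fin 2 → ℚ) : lq abc 1 x = x 1 := by
  rw [lq_apply, Fin.sum_univ_two]
  simp [abc]

lemma lq2 (x : Fin 2 → ℚ) : lq abc 2 x = x 0 + x 1 := by
  rw [lq_apply, Fin.sum_univ_two]
  simp [abc]

lemma lz0 (x : Fin 2 → ℤ) : lz abc 0 x = x 0 := by
  unfold lz
  rw [Fin.sum_univ_two]
  simp [abc]

lemma lz1 (x : Fin 2 → ℤ) : lz abc 1 x = x 1 := by
  unfold lz
  rw [Fin.sum_univ_two]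
  simp [abc]

lemma lz2 (x : Fin 2 → ℤ) : lz abc 2 x = x 0 + x 1 := by
  unfold lz
  rw [Fin.sum_univ_two]
  simp [abc]

lemma ext2 {x : Fin 2 → ℚ} (h0 : x 0 = 0) (h1 : x 1 = 0) : x = 0 := by
  funext k
  fin_cases k
  · exact h0
  · exact h1

lemma abc_sp : Sp abc ![0, 1, 1] := by
  constructor
  · intro x hx
    have h0 := hx 0
    have h1 := hx 1
    rw [lq0] at h0
    rw [lq1] at h1
    exact ext2 h0 h1
  · intro i j hij h
    fin_cases i <;> fin_cases j
    · exact absurd rfl hij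
    · simp at h
    · simp at h
    · simp at h
    · exact absurd rfl hij
    · refine ⟨0, by simp, 1, -1, 1, by norm_num, by norm_num, by norm_num, ?_⟩
      intro k
      fin_cases k <;> simp [abc]
    · simp at h
    · refine ⟨0, by simp, -1, 1, 1, by norm_num, by norm_num, by norm_num, ?_⟩
      intro k
      fin_cases k <;> simp [abc]
    · exact absurd rfl hij

lemma abc_irr : Irr abc := by
  intro U V _ h
  have h0 := h 0
  have h1 := h 1
  have h2 := h 2
  have key : ∀ S : Submodule ℚ (Fin 2 → ℚ),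
      ((∀ x ∈ S, lq abc 0 x = 0) ∧ (∀ x ∈ S, lq abc 1 x = 0)) ∨
      ((∀ x ∈ S, lq abc 0 x = 0) ∧ (∀ x ∈ S, lq abc 2 x = 0)) ∨
      ((∀ x ∈ S, lq abc 1 x = 0) ∧ (∀ x ∈ S, lq abc 2 x = 0)) → S = ⊥ := by
    intro S hS
    rw [Submodule.eq_bot_iff]
    intro x hx
    rcases hS with ⟨a, b⟩ | ⟨a, b⟩ | ⟨a, b⟩
    · have e0 := a x hx
      have e1 := b x hx
      rw [lq0] at e0
      rw [lq1] at e1
      exact ext2 e0 e1
    · have e0 := a x hx
      have e1 := b x hx
      rw [lq0] at e0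
      rw [lq2] at e1
      exact ext2 e0 (by linarith)
    · have e0 := a x hx
      have e1 := b x hx
      rw [lq1] at e0
      rw [lq2] at e1
      exact ext2 (by linarith) e0
  rcases h0 with h0 | h0 <;> rcases h1 with h1 | h1 <;> rcases h2 with h2 | h2
  · exact Or.inl (key U (Or.inl ⟨h0, h1⟩))
  · exact Or.inl (key U (Or.inl ⟨h0, h1⟩))
  · exact Or.inl (key U (Or.inr (Or.inl ⟨h0, h2⟩)))
  · exact Or.inr (key V (Or.inr (Or.inr ⟨h1, h2⟩)))
  · exact Or.inl (key U (Or.inr (Or.inr ⟨h1, h2⟩)))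
  · exact Or.inr (key V (Or.inr (Or.inl ⟨h0, h2⟩)))
  · exact Or.inr (key V (Or.inl ⟨h0, h1⟩))
  · exact Or.inr (key V (Or.inl ⟨h0, h1⟩))

lemma abc_ar : Ar abc := abc_sp.ar abc_irr

/-- the sum with the exponents one converges -/
lemma abc_one : Summable fun x : {x : Fin 2 → ℤ // Pt abc x} => term abc (fun _ => 1) 0 x.1 := by
  rw [main le_rfl abc_ar _ (fun _ => zero_le_one) 0 le_rfl (fun _ => by norm_num)]
  intro W hW
  rw [Finset.sum_const, nsmul_eq_mul, mul_one, zero_add]
  have hle : Module.finrank ℚ W ≤ 2 := by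
    have := Submodule.finrank_le W
    rwa [Module.finrank_fin_fun] at this
  obtain ⟨w, hw, hw0⟩ := (Submodule.ne_bot_iff _).1 hW
  have hm : ∀ i, lq abc i w ≠ 0 → i ∈ crs abc W := fun i hi => mem_crs.2 ⟨w, hw, hi⟩
  rcases Nat.lt_or_ge (Module.finrank ℚ W) 2 with h1 | h1
  · -- two forms do not vanish
    have h2 : 2 ≤ (crs abc W).card := by
      by_cases e0 : lq abc 0 w = 0
      · have e1 : lq abc 1 w ≠ 0 := by
          intro e1
          rw [lq0] at e0
          rw [lq1] at e1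
          exact hw0 (ext2 e0 e1)
        have e2 : lq abc 2 w ≠ 0 := by
          rw [lq0] at e0
          rw [lq1] at e1
          rw [lq2, e0, zero_add]
          exact e1
        have h3 : ({1, 2} : Finset (Fin 3)) ⊆ crs abc W := by
          intro i hi
          rw [mem_insert, mem_singleton] at hi
          rcases hi with rfl | rfl
          · exact hm _ e1
          · exact hm _ e2
        exact (card_le_card h3).trans' (by decide)
      · by_cases e1 : lq abc 1 w = 0
        · have e2 : lq abc 2 w ≠ 0 := by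
            rw [lq1] at e1
            rw [lq0] at e0
            rw [lq2, e1, add_zero]
            exact e0
          have h3 : ({0, 2} : Finset (Fin 3)) ⊆ crs abc W := by
            intro i hi
            rw [mem_insert, mem_singleton] at hi
            rcases hi with rfl | rfl
            · exact hm _ e0
            · exact hm _ e2
          exact (card_le_card h3).trans' (by decide)
        · have h3 : ({0, 1} : Finset (Fin 3)) ⊆ crs abc W := by
            intro i hi
            rw [mem_insert, mem_singleton] at hi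
            rcases hi with rfl | rfl
            · exact hm _ e0
            · exact hm _ e1
          exact (card_le_card h3).trans' (by decide)
    exact_mod_cast (by omega : Module.finrank ℚ W < (crs abc W).card)
  · -- no form vanishes
    have htop : W = ⊤ := by
      apply Submodule.eq_top_of_finrank_eq
      rw [Module.finrank_fin_fun]
      omega
    have h2 : crs abc W = univ := by
      rw [Finset.eq_univ_iff_forall]
      intro i
      rw [mem_crs, htop]
      refine ⟨![1, 1], Submodule.mem_top, ?_⟩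
      fin_cases i
      · change lq abc 0 ![1, 1] ≠ 0
        rw [lq0]
        simp
      · change lq abc 1 ![1, 1] ≠ 0
        rw [lq1]
        simp
      · change lq abc 2 ![1, 1] ≠ 0
        rw [lq2]
        norm_num
    have h3 : (crs abc W).card = 3 := by
      rw [h2]
      rfl
    exact_mod_cast (by omega : Module.finrank ℚ W < (crs abc W).card)

/-- coprime coordinates -/
lemma pt_coprime {x : Fin 2 → ℤ} (hx : Finset.univ.gcd x = 1) : IsCoprime (x 0) (x 1) := by
  have h1 : gcd (x 0) (x 1) ∣ Finset.univ.gcd x := by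
    apply Finset.dvd_gcd
    intro k _
    fin_cases k
    · exact gcd_dvd_left _ _
    · exact gcd_dvd_right _ _
  rw [hx] at h1
  exact (gcd_isUnit_iff _ _).1 (isUnit_of_dvd_one h1)

lemma gcd_of_coprime {x : Fin 2 → ℤ} (h : IsCoprime (x 0) (x 1)) : Finset.univ.gcd x = 1 := by
  have h1 : Finset.univ.gcd x ∣ x 0 := Finset.gcd_dvd (mem_univ _)
  have h2 : Finset.univ.gcd x ∣ x 1 := Finset.gcd_dvd (mem_univ _)
  have h4 := h.isUnit_of_dvd' h1 h2
  have h5 := Finset.normalize_gcd (s := univ) (f := x)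
  rw [← h5]
  exact normalize_eq_one.2 h4

/-- the radical of the product -/
lemma zr_prod {x : Fin 2 → ℤ} (hx : Pt abc x) :
    zr (x 0 * x 1 * (x 0 + x 1)) = zr (x 0) * zr (x 1) * zr (x 0 + x 1) := by
  have hc := pt_coprime hx.gcd
  have h0 : x 0 ≠ 0 := by have := hx.ne 0; rwa [lz0] at this
  have h1 : x 1 ≠ 0 := by have := hx.ne 1; rwa [lz1] at this
  have h2 : x 0 + x 1 ≠ 0 := by have := hx.ne 2; rwa [lz2] at this
  have hmul : ∀ u v : ℤ, u ≠ 0 → v ≠ 0 → IsCoprime u v → zr (u * v) = zr u * zr v := by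
    intro u v hu hv huv
    unfold zr rad
    rw [Int.natAbs_mul, Nat.Coprime.primeFactors_mul (Int.isCoprime_iff_nat_coprime.1 huv),
      Finset.prod_union]
    exact Nat.Coprime.disjoint_primeFactors (Int.isCoprime_iff_nat_coprime.1 huv)
  have hc1 : IsCoprime (x 0) (x 0 + x 1) := by
    have := hc.add_mul_left_right 1
    rwa [mul_one, add_comm] at this
  have hc2 : IsCoprime (x 1) (x 0 + x 1) := by
    have := hc.symm.add_mul_left_right 1
    rwa [mul_one] at this
  rw [hmul _ _ (mul_ne_zero h0 h1) h2 (IsCoprime.mul_left hc1 hc2), hmul _ _ h0 h1 hc]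

/-- **Oesterlé's weak form of the abc conjecture and the sums** -/
theorem weak_abc : (∃ M : ℕ, ∀ a b c : ℕ, 0 < a → 0 < b → Nat.Coprime a b → a + b = c →
      c < (∏ p ∈ (a * b * c).primeFactors, p) ^ M) ↔
    ∃ (s : Fin 3 → ℝ) (t : ℝ), t < 0 ∧
      Summable fun x : {x : Fin 2 → ℤ // Pt abc x} => term abc s t x.1 := by
  constructor
  · rintro ⟨M, hM⟩
    refine ⟨fun _ => (M : ℝ) + 1, -1, by norm_num, ?_⟩
    refine Summable.of_nonneg_of_le (fun x => term_nonneg abc _ _ x.1) (fun x => ?_) abc_one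
    obtain ⟨x, hx⟩ := x
    dsimp only
    have h0 : x 0 ≠ 0 := by have := hx.ne 0; rwa [lz0] at this
    have h1 : x 1 ≠ 0 := by have := hx.ne 1; rwa [lz1] at this
    have h2 : x 0 + x 1 ≠ 0 := by have := hx.ne 2; rwa [lz2] at this
    obtain ⟨q, c, e, q1, q2, q3, q4, -, q5, -⟩ := code_exists h0 h1 h2 (pt_coprime hx.gcd)
    have h3 := hM q.1 q.2 (q.1 + q.2) q1 q2 q3 rfl
    have h4 : q.1 + q.2 < zr (x 0 * x 1 * (x 0 + x 1)) ^ M := by
      rw [← q4]
      exact h3
    obtain ⟨R, hR⟩ : ∃ R : ℝ, R = (zr (x 0) : ℝ) * zr (x 1) * zr (x 0 + x 1) := ⟨_, rfl⟩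
    have hR1 : (1 : ℝ) ≤ R := by
      rw [hR]
      have e0 : (1 : ℝ) ≤ zr (x 0) := by exact_mod_cast zr_pos _
      have e1 : (1 : ℝ) ≤ zr (x 1) := by exact_mod_cast zr_pos _
      have e2 : (1 : ℝ) ≤ zr (x 0 + x 1) := by exact_mod_cast zr_pos _
      exact one_le_mul_of_one_le_of_one_le (one_le_mul_of_one_le_of_one_le e0 e1) e2
    have hR0 : 0 < R := by linarith
    have hnorm : ‖x‖ ≤ R ^ M := by
      rw [pi_norm_le_iff_of_nonneg (by positivity)]
      have h5 : ((q.1 + q.2 : ℕ) : ℝ) ≤ R ^ M := by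
        rw [zr_prod hx] at h4
        rw [hR]
        exact_mod_cast h4.le
      intro k
      rw [Int.norm_eq_abs]
      have h6 : (x k).natAbs ≤ q.1 + q.2 := by
        fin_cases k
        · exact (le_max_left _ _).trans q5
        · exact (le_max_right _ _).trans q5
      have h7 : |(x k : ℝ)| = ((x k).natAbs : ℝ) := by
        rw [Nat.cast_natAbs, Int.cast_abs]
      rw [h7]
      exact (by exact_mod_cast h6 : ((x k).natAbs : ℝ) ≤ ((q.1 + q.2 : ℕ) : ℝ)).trans h5
    have hprod : ∀ σ : ℝ, ∏ i : Fin 3, (zr (lz abc i x) : ℝ) ^ (-σ) = R ^ (-σ) := by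
      intro σ
      rw [Fin.prod_univ_three, lz0, lz1, lz2, hR,
        Real.mul_rpow (by positivity) (Nat.cast_nonneg _),
        Real.mul_rpow (Nat.cast_nonneg _) (Nat.cast_nonneg _)]
    unfold term
    rw [hprod, hprod, neg_neg, neg_zero, Real.rpow_one, Real.rpow_zero, one_mul]
    calc ‖x‖ * R ^ (-((M : ℝ) + 1)) ≤ R ^ M * R ^ (-((M : ℝ) + 1)) :=
          mul_le_mul_of_nonneg_right hnorm (Real.rpow_nonneg hR0.le _)
      _ = R ^ (-1 : ℝ) := by
          rw [← Real.rpow_natCast, ← Real.rpow_add hR0]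
          congr 1
          ring
  · rintro ⟨s, t, ht, hsum⟩
    -- the terms are bounded
    obtain ⟨C, hC⟩ : ∃ C : ℝ, ∀ x : Fin 2 → ℤ, Pt abc x → term abc s t x ≤ C := by
      refine ⟨∑' x : {x : Fin 2 → ℤ // Pt abc x}, term abc s t x.1, fun x hx => ?_⟩
      exact hsum.le_tsum ⟨x, hx⟩ fun y _ => term_nonneg abc s t y.1
    obtain ⟨D, hD⟩ : ∃ D : ℝ, D = max C 1 := ⟨_, rfl⟩
    have hD1 : 1 ≤ D := by rw [hD]; exact le_max_right _ _
    have hD0 : 0 < D := by linarith
    obtain ⟨σ, hσ⟩ : ∃ σ : ℝ, σ = |s 0| + |s 1| + |s 2| := ⟨_, rfl⟩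
    have hσ0 : 0 ≤ σ := by rw [hσ]; positivity
    obtain ⟨τ, hτ⟩ : ∃ τ : ℝ, τ = -t := ⟨_, rfl⟩
    have hτ0 : 0 < τ := by rw [hτ]; linarith
    obtain ⟨K, hK⟩ := pow_unbounded_of_one_lt (2 * D ^ (1 / τ)) (one_lt_two (α := ℝ))
    obtain ⟨N, hN⟩ := exists_nat_ge (σ / τ)
    refine ⟨K + N, ?_⟩
    intro a b c ha hb hab hc
    obtain ⟨x, hx⟩ : ∃ x : Fin 2 → ℤ, x = ![(a : ℤ), (b : ℤ)] := ⟨_, rfl⟩
    have hx0 : x 0 = a := by rw [hx]; rfl
    have hx1 : x 1 = b := by rw [hx]; rfl
    have hcop : IsCoprime (x 0) (x 1) := by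
      rw [hx0, hx1]
      exact Nat.isCoprime_iff_coprime.2 hab
    have hPt : Pt abc x := by
      refine ⟨gcd_of_coprime hcop, ?_⟩
      intro i
      fin_cases i
      · change lz abc 0 x ≠ 0
        rw [lz0, hx0]
        omega
      · change lz abc 1 x ≠ 0
        rw [lz1, hx1]
        omega
      · change lz abc 2 x ≠ 0
        rw [lz2, hx0, hx1]
        omega
    have hterm := hC x hPt
    obtain ⟨R, hR⟩ : ∃ R : ℕ, R = ∏ p ∈ (a * b * c).primeFactors, p := ⟨_, rfl⟩
    have hRz : R = zr (x 0) * zr (x 1) * zr (x 0 + x 1) := by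
      rw [← zr_prod hPt, hR, hx0, hx1]
      unfold zr rad
      have : ((a : ℤ) * b * (a + b)).natAbs = a * b * c := by
        rw [← hc]
        have : ((a : ℤ) * b * (a + b)) = ((a * b * (a + b) : ℕ) : ℤ) := by push_cast; ring
        rw [this, Int.natAbs_natCast]
      rw [this]
    rw [← hR]
    have hR2 : 2 ≤ R := by
      have h2 : 2 ∣ a * b * c := by
        rw [← hc]
        rcases Nat.even_or_odd a with h | h
        · exact ((even_iff_two_dvd.1 h).mul_right b).mul_right _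
        · rcases Nat.even_or_odd b with h' | h'
          · exact ((even_iff_two_dvd.1 h').mul_left a).mul_right _
          · exact (even_iff_two_dvd.1 (h.add_odd h')).mul_left _
      have h3 : 2 ∈ (a * b * c).primeFactors := by
        rw [Nat.mem_primeFactors]
        refine ⟨Nat.prime_two, h2, ?_⟩
        rw [← hc]
        positivity
      rw [hR]
      exact Nat.le_of_dvd (Finset.prod_pos fun p hp => (Nat.prime_of_mem_primeFactors hp).pos)
        (Finset.dvd_prod_of_mem _ h3)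
    have hR2' : (2 : ℝ) ≤ R := by exact_mod_cast hR2
    have hR1 : (1 : ℝ) ≤ R := by linarith
    have hR0 : (0 : ℝ) < R := by linarith
    have hz1 : ∀ v : ℤ, (1 : ℝ) ≤ zr v := fun v => by exact_mod_cast zr_pos v
    have hzR : ∀ v : ℤ, (v = x 0 ∨ v = x 1 ∨ v = x 0 + x 1) → (zr v : ℝ) ≤ R := by
      intro v hv
      rw [hRz]
      push_cast
      have e0 := hz1 (x 0)
      have e1 := hz1 (x 1)
      have e2 := hz1 (x 0 + x 1)
      rcases hv with rfl | rfl | rfl
      · calc (zr (x 0) : ℝ) = zr (x 0) * 1 * 1 := by ring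
          _ ≤ _ := by gcongr
      · calc (zr (x 1) : ℝ) = 1 * zr (x 1) * 1 := by ring
          _ ≤ _ := by gcongr
      · calc (zr (x 0 + x 1) : ℝ) = 1 * 1 * zr (x 0 + x 1) := by ring
          _ ≤ _ := by gcongr
    have hfac : ∀ (v : ℤ) (y : ℝ), (v = x 0 ∨ v = x 1 ∨ v = x 0 + x 1) →
        (R : ℝ) ^ (-|y|) ≤ (zr v : ℝ) ^ (-y) := by
      intro v y hv
      have h1 : (zr v : ℝ) ^ (-|y|) ≤ (zr v : ℝ) ^ (-y) :=
        Real.rpow_le_rpow_of_exponent_le (hz1 v) (by have := le_abs_self y; linarith)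
      refine le_trans ?_ h1
      exact Real.rpow_le_rpow_of_nonpos (by have := hz1 v; linarith) (hzR v hv)
        (by have := abs_nonneg y; linarith)
    have hprod : (R : ℝ) ^ (-σ) ≤ ∏ i : Fin 3, (zr (lz abc i x) : ℝ) ^ (-s i) := by
      rw [Fin.prod_univ_three, lz0, lz1, lz2]
      have h3 : (R : ℝ) ^ (-σ) = (R : ℝ) ^ (-|s 0|) * (R : ℝ) ^ (-|s 1|) * (R : ℝ) ^ (-|s 2|) := by
        rw [← Real.rpow_add hR0, ← Real.rpow_add hR0, hσ]
        congr 1
        ring
      rw [h3]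
      gcongr
      · exact hfac _ _ (Or.inl rfl)
      · exact hfac _ _ (Or.inr (Or.inl rfl))
      · exact hfac _ _ (Or.inr (Or.inr rfl))
    have hnx : (c : ℝ) / 2 ≤ ‖x‖ := by
      have h3 : ‖x 0‖ ≤ ‖x‖ := norm_le_pi_norm x 0
      have h4 : ‖x 1‖ ≤ ‖x‖ := norm_le_pi_norm x 1
      rw [Int.norm_eq_abs, hx0] at h3
      rw [Int.norm_eq_abs, hx1] at h4
      have h5 : (c : ℝ) = a + b := by rw [← hc]; push_cast; ring
      have h6 := le_abs_self (((a : ℤ) : ℝ))
      have h7 := le_abs_self (((b : ℤ) : ℝ))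
      have h8 : (((a : ℤ) : ℝ)) = a := by push_cast; ring
      have h9 : (((b : ℤ) : ℝ)) = b := by push_cast; ring
      rw [h8] at h6 h3
      rw [h9] at h7 h4
      linarith
    have hc0 : (0 : ℝ) < c := by
      have : 0 < c := by omega
      exact_mod_cast this
    have hb1 : ((c : ℝ) / 2) ^ τ * (R : ℝ) ^ (-σ) ≤ D := by
      calc ((c : ℝ) / 2) ^ τ * (R : ℝ) ^ (-σ) ≤
            ‖x‖ ^ τ * ∏ i : Fin 3, (zr (lz abc i x) : ℝ) ^ (-s i) :=
            mul_le_mul (Real.rpow_le_rpow (by positivity) hnx hτ0.le) hprod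
              (Real.rpow_nonneg hR0.le _) (Real.rpow_nonneg (norm_nonneg _) _)
        _ = term abc s t x := by
            unfold term
            rw [hτ]
        _ ≤ C := hterm
        _ ≤ D := by rw [hD]; exact le_max_left _ _
    have hb2 : ((c : ℝ) / 2) ^ τ ≤ D * (R : ℝ) ^ σ := by
      have h3 : (R : ℝ) ^ (-σ) * (R : ℝ) ^ σ = 1 := by
        rw [← Real.rpow_add hR0, neg_add_cancel, Real.rpow_zero]
      calc ((c : ℝ) / 2) ^ τ = ((c : ℝ) / 2) ^ τ * (R : ℝ) ^ (-σ) * (R : ℝ) ^ σ := by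
            rw [mul_assoc, h3, mul_one]
        _ ≤ D * (R : ℝ) ^ σ := mul_le_mul_of_nonneg_right hb1 (Real.rpow_nonneg hR0.le _)
    have hb3 : (c : ℝ) / 2 ≤ D ^ (1 / τ) * (R : ℝ) ^ (σ / τ) := by
      have h3 : (((c : ℝ) / 2) ^ τ) ^ (1 / τ) ≤ (D * (R : ℝ) ^ σ) ^ (1 / τ) :=
        Real.rpow_le_rpow (by positivity) hb2 (by positivity)
      rw [← Real.rpow_mul (by positivity), mul_one_div_cancel hτ0.ne', Real.rpow_one,
        Real.mul_rpow hD0.le (by positivity), ← Real.rpow_mul hR0.le, mul_one_div] at h3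
      exact h3
    have hfin : (c : ℝ) < (R : ℝ) ^ (K + N) := by
      calc (c : ℝ) ≤ 2 * D ^ (1 / τ) * (R : ℝ) ^ (σ / τ) := by linarith
        _ < 2 ^ K * (R : ℝ) ^ (σ / τ) := mul_lt_mul_of_pos_right hK (Real.rpow_pos_of_pos hR0 _)
        _ ≤ (R : ℝ) ^ K * (R : ℝ) ^ (N : ℝ) := by
            apply mul_le_mul (pow_le_pow_left₀ (by norm_num) hR2' K) _ (Real.rpow_nonneg hR0.le _)
              (by positivity)
            exact Real.rpow_le_rpow_of_exponent_le hR1 hN
        _ = (R : ℝ) ^ (K + N) := by rw [Real.rpow_natCast, pow_add]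
    exact_mod_cast hfin

end Pool.Agent.H583.SA
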